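import Mathlib
import Pool.Agent.W547.LN.Family

/-!
# Project D3G: combinatorial lemma jobs

`G` is a finite group with a central element `c`. A half system is a subset `S` of `G` with
`S ⊔ c S = G`, `eps S` its sign function, `tr` and `rtr` the right translations of sets and functions.
`QQ c` is the span of the odd quadratic characters `chi N` (`Imag c N`: the subgroups `N` of index two
which do not contain `c`), `VV Q` the span of the `eps S`, `S ∈ Q`. An orbit (`IsOrbit c Q`) consists of at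
most six half systems, is stable under right translations (transitively) and complements.
-/

namespace Pool.Agent.Q60.D3G

open Module Pool.Agent.W547.LD Pool.Agent.W547.LD.Comb

/-- JOB G1 LINE. An odd function whose right translates are multiples of it is a combination of
(a multiple of one) odd quadratic characters.
Proof: let `F ≠ 0` and `rtr g F = a g • F`. Then `F g = (rtr g F) 1 = a g * F 1`, so `F 1 ≠ 0`, the
numbers `a g = F g / F 1` are multiplicative, and since `G` is finite and they are rational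
`a g = 1` or `a g = -1`. Let `N` be the subgroup of the `g` with `a g = 1`. `a c = -1` since `F` is odd
(`σ = 1`); so `Imag c N` (for `τ ∉ N`: `a (c τ) = (-1) (-1) = 1`). `F = F 1 • eps {σ | σ ∈ N}` (or use
`eq_smul_eps`), and `eps_mem_QQ`. -/
def S_line : Prop :=
  ∀ (G : Type) [Group G] [Fintype G] (c : G), (∀ g, c * g = g * c) → ∀ F : G → ℚ,
    (∀ σ, F (c * σ) = -F σ) → (∀ g, ∃ a : ℚ, rtr g F = a • F) → F ∈ QQ c

/-- JOB G2 IRR. A space `V` of dimension at most three of odd functions, stable under right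
translation, which meets `QQ c` in zero, is irreducible.
Proof (with `S_line`): a stable subspace `W` of dimension one is spanned by `F` as in `S_line`, so
`F ∈ QQ c`, `F = 0`, a contradiction. If `W` has dimension two and `V` has dimension three then the
orthogonal complement of `W` in `V` for the scalar product `dot` (positive definite, `dot_self`,
invariant, `dot_rtr`) is stable and has dimension one, a contradiction. Otherwise `W = ⊥` or the
dimensions are equal and `W = V`. -/
def S_irr : Prop :=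
  ∀ (G : Type) [Group G] [Fintype G] (c : G), (∀ g, c * g = g * c) →
    ∀ V : Submodule ℚ (G → ℚ), (∀ F ∈ V, ∀ σ, F (c * σ) = -F σ) →
    (∀ g, ∀ F ∈ V, rtr g F ∈ V) → (∀ F ∈ V, F ∈ QQ c → F = 0) → finrank ℚ V ≤ 3 →
    ∀ W ≤ V, (∀ g, ∀ F ∈ W, rtr g F ∈ W) → W = ⊥ ∨ W = V

/-- The functions orthogonal to the odd quadratic characters. -/
def Perp {G : Type} [Group G] [Fintype G] (c : G) : Submodule ℚ (G → ℚ) where
  carrier := {F | ∀ N : Subgroup G, Imag c N → dot F (chi N) = 0}
  zero_mem' := fun N _ => dot_zero _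
  add_mem' := fun {F F'} h h' N hN => by rw [dot_add, h N hN, h' N hN, add_zero]
  smul_mem' := fun q F h N hN => by rw [dot_smul, h N hN, mul_zero]

/-- JOB G3 PROJ. Each element of a stable space `V` is the sum of an element of `V` orthogonal to the
odd quadratic characters, and an element of `V` which is a combination of odd quadratic characters.
Proof: for `Imag c N` and `F ∈ V` the average `(1 / |G|) ∑ g, chi N g • rtr g F` is
`(dot F (chi N) / |G|) • chi N` (substitute `h = σ g` in `∑ g, chi N g * F (σ g)`; `chi N` is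
multiplicative, `Imag.mul_mem_iff`), so this multiple of `chi N` is in `V`. Subtract these for all
`N` (there are finitely many subgroups); the characters are orthogonal (`dot_chi`,
`dot_chi_self`). -/
def S_proj : Prop :=
  ∀ (G : Type) [Group G] [Fintype G] (c : G), (∀ g, c * g = g * c) →
    ∀ V : Submodule ℚ (G → ℚ), (∀ g, ∀ F ∈ V, rtr g F ∈ V) → ∀ F ∈ V,
      ∃ F' ∈ V ⊓ Perp c, F - F' ∈ V ⊓ QQ c

/-- The functions `t i` have the values `1` and `-1`, and all combinations of values. -/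
structure FullT {G : Type} (d : ℕ) (t : Fin d → G → ℚ) : Prop where
  val : ∀ i σ, t i σ = 1 ∨ t i σ = -1
  all : ∀ p : Fin d → ℚ, (∀ i, p i = 1 ∨ p i = -1) → ∃ σ, ∀ i, t i σ = p i

/-- The functions `t i` (`i = 0, 1, 2`) are `χ` outside of the fibre of `D : G → Fin 3` over `i`, and
`-χ` on this fibre; `χ` has the values `1` and `-1`. -/
structure TriT {G : Type} (χ : G → ℚ) (D : G → Fin 3) (t : Fin 3 → G → ℚ) : Prop where
  val : ∀ σ, χ σ = 1 ∨ χ σ = -1
  surj : Function.Surjective D
  eq : ∀ i σ, t i σ = if D σ = i then -χ σ else χ σ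

/-- JOB G4 STRUCT. The structure of an orbit with more than two elements.
Proof. `Q` has `2 d` elements, `d = 2` or `3` (pairs of complements): representatives `t i = eps (S i)`,
`S i ≠ S k`, `S i ≠ (S k)ᶜ` for `i ≠ k`, every element of `Q` is an `S i` or an `(S i)ᶜ`; `VV Q` is spanned
by the `t i`; by `exists_ne` and `exists_eq` any two of them are equal somewhere and opposite
somewhere. No character is in the orbit: `chi N ≠ ± t i` because otherwise `Q` (transitive) has two
elements (`Imag.tr_mem`, `Imag.tr_not_mem`).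
`d = 2`: all four combinations of values occur (`t i (c σ) = - t i σ`). If `F ∈ VV Q ⊓ QQ c`, `F ≠ 0`,
then `dot F (chi N) ≠ 0` for some `N` (`QQ_ext`) and `chi N ∈ VV Q` by the argument in `S_proj`:
`chi N = a t_0 + b t_1`, so `|a + b| = |a - b| = 1`, so `chi N` is `± t_0` or `± t_1`, a contradiction. So
`VV Q ⊓ Perp c = VV Q` by `S_proj`.
`d = 3`, all eight combinations occur: the same (`chi N = ∑ a i t i`; changing one sign changes the value
by `2 a i ∈ {0, 2, -2}`, and `∑ |a i| = 1`).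
`d = 3`, some combination `p` does not occur: let `t' i = p i • t i` (the sign function of an element
of `Q`). Then `t' 0, t' 1, t' 2` are never all equal (the opposite combination does not occur
either, as `t i (c σ) = - t i σ`), so `χ = ∑ t' i` has the values `1` and `-1` and exactly one
`t' i σ`, `i = D σ`, is different from `χ σ`; so `TriT χ D t'` (surjective: otherwise `t' i = χ` for
some `i`, and the two others are opposite everywhere). `χ` is (up to the sign) a character: `rtr g χ` is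
a combination `∑ s i t' i` with signs `s i`, and has the values `1` and `-1`; if the signs are not all
equal it is `± (χ - 2 t' i)`, so `t' i = χ` everywhere, a contradiction; so `rtr g χ = ± χ`, and
`N = {g | rtr g χ = χ}` satisfies `Imag c N`, `χ = χ 1 • chi N`; replace `t'` by `χ 1 • t'`. The scalar
products `dot (t' i) χ` are equal: some `g` maps `t' i` to `± t' k` by transitivity, so the fibres of
`D` over `i` and `k` have the same size (or sizes with the sum `|G|`, impossible as the third fibre is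
not empty), so all fibres have `|G| / 3` elements and `dot (t' i) χ = |G| / 3`. Hence
`F = ∑ a i t' i ∈ Perp c` implies `∑ a i = 0`. Conversely `t' i - (1/3) χ ∈ Perp c`: it is orthogonal to
`χ`; if it is not orthogonal to `chi M`, `M ≠ N`, then `chi M ∈ VV Q` as before, `chi M = ∑ a i t' i`, so
`|A - 2 a i| = 1` for `A = ∑ a i` and `i = 0, 1, 2`; this gives `a` a unit vector or `(1,1,1)` up to the
sign, so `chi M = ± t' i`, or `± χ`, contradictions. -/
def S_struct : Prop :=
  ∀ (G : Type) [Group G] [Fintype G] (c : G), (∀ g, c * g = g * c) → ∀ Q : Set (Set G),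
    IsOrbit c Q → 2 < Q.ncard →
    (∃ t : Fin 2 → G → ℚ, FullT 2 t ∧ (∀ i, ∃ S ∈ Q, t i = eps S) ∧
      VV Q = Submodule.span ℚ (Set.range t) ∧ VV Q ⊓ Perp c = VV Q) ∨
    (∃ t : Fin 3 → G → ℚ, FullT 3 t ∧ (∀ i, ∃ S ∈ Q, t i = eps S) ∧
      VV Q = Submodule.span ℚ (Set.range t) ∧ VV Q ⊓ Perp c = VV Q) ∨
    (∃ (N : Subgroup G) (D : G → Fin 3) (t : Fin 3 → G → ℚ), Imag c N ∧ TriT (chi N) D t ∧
      (∀ i, ∃ S ∈ Q, t i = eps S) ∧ (∀ i, t i - (1 / 3 : ℚ) • chi N ∈ VV Q ⊓ Perp c) ∧
      ∀ F ∈ VV Q ⊓ Perp c, ∃ a : Fin 3 → ℚ, F = ∑ i, a i • t i ∧ ∑ i, a i = 0)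

/-- JOB G5 CMP. Comparison of two systems with the same span.
First part: `t' i' = ∑ a i t i` for `i' = 0` (if `d' = 0` then the span is zero and `d = 0`); changing one
sign shows `2 a i ∈ {0, 2, -2}`, choosing all signs shows `∑ |a i| = 1`, so `t' 0 = ± t i` for some
`i`.
Second part: on the fibre of `D` over `i` we get `χ' σ (2/3 - 2 [D' σ = 0]) = - 2 a i χ σ` (as
`∑ a i = 0`), so `χ' χ (1/3 - [D' σ = 0]) = - a i`; so all `a i` are in `{1/3, -1/3, 2/3, -2/3}` with sum
`0`, hence `- a` is a permutation of `(1/3, 1/3, -2/3)` or of `(-1/3, -1/3, 2/3)`. In the first case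
`χ' σ = χ σ` everywhere (the values with `χ' χ = -1` are `-1/3`, `2/3`) and `D' σ = 0` exactly on the
fibre over the `i` with `- a i = -2/3`, so `t' 0 = t i`; in the second case `χ' = -χ` and
`t' 0 = - t i`.
Third part: `t' k - (1/3) χ' = a k t 0 + b k t 1`; all four combinations of the values of `t 0`, `t 1`
occur, and the left side has the values `± 2/3`, `± 4/3`, and values of both absolute values occur; so
`{|a k + b k|, |a k - b k|} = {2/3, 4/3}` and `3 a k` is `3`, `-3`, `1` or `-1`; but the sum over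
`k = 0, 1, 2` of the left side is `0` (`∑ t' k = χ'`), so `∑ 3 a k = 0` (`t 0`, `t 1` are linearly
independent), impossible for three odd integers. -/
def S_cmp : Prop :=
  (∀ (G : Type) (d d' : ℕ) (t : Fin d → G → ℚ) (t' : Fin d' → G → ℚ), 0 < d' → FullT d t →
    FullT d' t' → Submodule.span ℚ (Set.range t) = Submodule.span ℚ (Set.range t') →
    ∃ i i', t' i' = t i ∨ t' i' = -t i) ∧
  (∀ (G : Type) (χ χ' : G → ℚ) (D D' : G → Fin 3) (t t' : Fin 3 → G → ℚ) (a : Fin 3 → ℚ),
    TriT χ D t → TriT χ' D' t' → t' 0 - (1 / 3 : ℚ) • χ' = ∑ i, a i • t i → ∑ i, a i = 0 →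
    ∃ i, t' 0 = t i ∨ t' 0 = -t i) ∧
  (∀ (G : Type) (χ' : G → ℚ) (D' : G → Fin 3) (t : Fin 2 → G → ℚ) (t' : Fin 3 → G → ℚ),
    FullT 2 t → TriT χ' D' t' →
    ¬ ∀ k, t' k - (1 / 3 : ℚ) • χ' ∈ Submodule.span ℚ (Set.range t))

/-- (Assembly from G1 - G5, by helper60.) Two different orbits. -/
def S_pair : Prop :=
  ∀ (G : Type) [Group G] [Fintype G] (c : G), (∀ g, c * g = g * c) → ∀ Q Q' : Set (Set G),
    IsOrbit c Q → IsOrbit c Q' → Q ≠ Q' → 2 < Q.ncard → 2 < Q'.ncard →
    ∀ F ∈ VV Q, ∀ F' ∈ VV Q', F + F' ∈ QQ c → F ∈ QQ c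

/-- JOB G6 SEP. As `Pool.Agent.W547.LD.Comb.sep` and `absorb` (`Pool/Agent/W547/LN/Sep.lean`), for an
arbitrary stable space `V` in the place of `VV P`: the same proofs, `hsum` replaces
`sum_mem_QQ`. -/
def S_sep : Prop :=
  ∀ (G : Type) [Group G] [Fintype G] (c : G), (∀ g, c * g = g * c) →
    ∀ V : Submodule ℚ (G → ℚ), (∀ g, ∀ F ∈ V, rtr g F ∈ V) →
    ∀ (ι : Type) [DecidableEq ι] (s : Finset ι) (M : ι → Subgroup G),
    (∀ i ∈ s, (M i).Normal) →
    (∀ i ∈ s, ∀ [Fintype (M i)], ∀ F ∈ V, ∑ h : M i, rtr h.1 F ∈ QQ c) →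
    ∀ (F : G → ℚ) (f : ι → G → ℚ), F ∈ V → (∀ i ∈ s, ∀ h ∈ M i, rtr h (f i) = f i) →
      F + ∑ i ∈ s, f i ∈ QQ c → F ∈ QQ c

/-- JOB G7 PART (hypotheses `S_sep`, `S_pair`). As `Pool.Agent.W547.LD.Comb.part_mem_QQ`
(`Pool/Agent/W547/LN/Family.lean`), but two different orbits may have the same kernel.
Proof: let `B` be the set of the `Q ∈ O` with `FF (aQ a Q) ∉ QQ c`, suppose that it is not empty; choose
`K ∈ B` with the smallest kernel (cardinality), and let `T` be the set of the `Q ∈ B` with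
`kerP Q = kerP K`; all these have more than two elements (as in the proof of `part_mem_QQ`), so `T` has
at most two elements. For `Q ∈ B`, `Q ∉ T`, `kerP Q` is not contained in `kerP K` (it has at least as many
elements), so it acts nontrivially on all orbits in `T` (they have the kernel `kerP K`), and
`∑ h : kerP Q, rtr h F ∈ QQ c` for `F = eps S`, `S ∈ Q' ∈ T`, by `sum_mem_QQ`, hence for all
`F ∈ V = ⨆ Q' ∈ T, VV Q'`. `S_sep` for `V`, `s = B \ T`, `M = kerP`, `F = ∑ Q' ∈ T, FF (aQ a Q')`,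
`f Q = FF (aQ a Q)` gives `F ∈ QQ c` (use `sum_FF`, as there). If `T = {K}` this contradicts `K ∈ B`; if
`T = {K, K'}` then `S_pair` gives `FF (aQ a K) ∈ QQ c`, a contradiction. -/
def S_part : Prop :=
  ∀ (G : Type) [Group G] [Fintype G] (c : G), (∀ g, c * g = g * c) → ∀ O : Finset (Set (Set G)),
    (∀ Q ∈ O, IsOrbit c Q) → (∀ Q ∈ O, ∀ Q' ∈ O, Q ≠ Q' → Disjoint Q Q') →
    (∀ Q ∈ O, ∀ Q' ∈ O, ∀ Q'' ∈ O, 2 < Q.ncard → 2 < Q'.ncard → 2 < Q''.ncard →
      kerP Q = kerP Q' → kerP Q' = kerP Q'' → Q = Q' ∨ Q' = Q'' ∨ Q = Q'') →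
    ∀ (P : Set (Set G)), (∀ S, S ∈ P ↔ ∃ Q ∈ O, S ∈ Q) → ∀ a : Set G → ℚ, IsRel P a →
      ∀ Q ∈ O, FF (aQ a Q) ∈ QQ c

/-- JOB G8 TWO (hypothesis `S_part`). As `Pool.Agent.W547.LD.Comb.exists_two`
(`Pool/Agent/W547/LN/Family.lean`): copy the proof, with `S_part` for `part_mem_QQ`. -/
def S_two : Prop :=
  ∀ (G : Type) [Group G] [Fintype G] (c : G), (∀ g, c * g = g * c) → ∀ O : Finset (Set (Set G)),
    (∀ Q ∈ O, IsOrbit c Q) → (∀ Q ∈ O, ∀ Q' ∈ O, Q ≠ Q' → Disjoint Q Q') →
    (∀ Q ∈ O, ∀ Q' ∈ O, ∀ Q'' ∈ O, 2 < Q.ncard → 2 < Q'.ncard → 2 < Q''.ncard →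
      kerP Q = kerP Q' → kerP Q' = kerP Q'' → Q = Q' ∨ Q' = Q'' ∨ Q = Q'') →
    ∀ (P : Set (Set G)), (∀ S, S ∈ P ↔ ∃ Q ∈ O, S ∈ Q) → ∀ a : Set G → ℚ, IsRel P a → a ≠ 0 →
    ∃ (N : Subgroup G) (x y : Set G),
      (∀ τ ∈ N, a (tr τ x) = a x) ∧ (∀ τ ∈ N, a (tr τ y) = a y) ∧ 0 < a x ∧ 0 < a y ∧
      Imag c N ∧ Half c x ∧ Half c y ∧ stb x ≤ N ∧ stb y ≤ N ∧
      (∀ (S : OrbT N x) (T : OrbT N y), S.1 ≠ T.1) ∧
      ((Nat.card (OrbT N x) = 1 ∨ Nat.card (OrbT N x) = 3) ∧
        (Nat.card (OrbT N y) = 1 ∨ Nat.card (OrbT N y) = 3)) ∧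
      by classical exact (psum N x 1 = -psum N y 1)

end Pool.Agent.Q60.D3G
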