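import Mathlib
import Pool.Agent.Q60.D3G.StmC

/-!
# Two different orbits of half systems
-/

set_option linter.unusedSectionVars false
set_option linter.unusedVariables false

namespace Pool.Agent.Q60.D3G

open Module Pool.Agent.W547.LD Pool.Agent.W547.LD.Comb

section

variable {G : Type} [Group G] [Fintype G] {c : G}

theorem rtr_mem_Perp (hc : ∀ g, c * g = g * c) (g : G) {F : G → ℚ} (hF : F ∈ Perp c) :
    rtr g F ∈ Perp c := by
  intro N hN
  have h1 := dot_rtr g F (chi N)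
  rw [rtr_chi hc hN, dot_comm, dot_smul, dot_comm, hF N hN] at h1
  refine (mul_eq_zero.1 h1).resolve_left ?_
  rcases eps_cases {σ | σ ∈ N} g with h | h
  · rw [chi, h]
    norm_num
  · rw [chi, h]
    norm_num

theorem odd_of_mem_VV {Q : Set (Set G)} (hQ : ∀ S ∈ Q, Half c S) {F : G → ℚ} (hF : F ∈ VV Q)
    (σ : G) : F (c * σ) = -F σ := by
  refine Submodule.span_induction (p := fun F _ => F (c * σ) = -F σ) ?_ ?_ ?_ ?_ hF
  · rintro _ ⟨S, hS, rfl⟩
    have h1 := hQ S hS σ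
    unfold eps
    by_cases h : σ ∈ S
    · rw [if_pos h, if_neg (h1.1 h)]
    · rw [if_neg h, if_pos (by tauto), neg_neg]
  · simp
  · intro x y _ _ hx hy
    rw [Pi.add_apply, Pi.add_apply, hx, hy]
    ring
  · intro a x _ hx
    rw [Pi.smul_apply, Pi.smul_apply, hx, smul_neg]

/-- A common element. -/
theorem orbit_eq {Q Q' : Set (Set G)} (hQ : IsOrbit c Q) (hQ' : IsOrbit c Q') {S : Set G}
    (h : S ∈ Q) (h' : S ∈ Q') : Q = Q' := by
  ext T
  constructor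
  · intro hT
    obtain ⟨g, hg⟩ := hQ.trans S h T hT
    rw [← hg]
    exact hQ'.stable g S h'
  · intro hT
    obtain ⟨g, hg⟩ := hQ'.trans S h' T hT
    rw [← hg]
    exact hQ.stable g S h

theorem eps_inj {S T : Set G} (h : eps S = eps T) : S = T := by
  ext σ
  exact (eps_eq_iff S T σ).1 (congrFun h σ)

theorem orbit_eq' {Q Q' : Set (Set G)} (hQ : IsOrbit c Q) (hQ' : IsOrbit c Q') {S S' : Set G}
    (h : S ∈ Q) (h' : S' ∈ Q') (he : eps S' = eps S ∨ eps S' = -eps S) : Q = Q' := by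
  rcases he with he | he
  · rw [eps_inj he] at h'
    exact orbit_eq hQ hQ' h h'
  · rw [← eps_compl'] at he
    rw [eps_inj he] at h'
    exact orbit_eq hQ hQ' (hQ.compl S h) h'

theorem fullT_indep {t : Fin 3 → G → ℚ} (ht : FullT 3 t) : LinearIndependent ℚ t := by
  rw [Fintype.linearIndependent_iff]
  intro a ha
  have key : ∀ p : Fin 3 → ℚ, (∀ i, p i = 1 ∨ p i = -1) → a 0 * p 0 + a 1 * p 1 + a 2 * p 2 = 0 := by
    intro p hp
    obtain ⟨σ, hσ⟩ := ht.all p hp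
    have h1 := congrFun ha σ
    rw [Finset.sum_apply, Fin.sum_univ_three] at h1
    simp only [Pi.smul_apply, smul_eq_mul, Pi.zero_apply, hσ] at h1
    exact h1
  have h1 := key ![1, 1, 1] (by intro i; fin_cases i <;> simp)
  have h2 := key ![-1, 1, 1] (by intro i; fin_cases i <;> simp)
  have h3 := key ![1, -1, 1] (by intro i; fin_cases i <;> simp)
  have h4 := key ![1, 1, -1] (by intro i; fin_cases i <;> simp)
  simp at h1 h2 h3 h4
  intro i
  fin_cases i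
  · simp only [Fin.zero_eta, Fin.isValue]; linarith
  · simp only [Fin.mk_one, Fin.isValue]; linarith
  · simp only [Fin.reduceFinMk, Fin.isValue]; linarith

theorem finrank_span_le {n : ℕ} (t : Fin n → G → ℚ) :
    finrank ℚ (Submodule.span ℚ (Set.range t)) ≤ n := by
  have h := finrank_range_le_card (R := ℚ) t
  rw [Fintype.card_fin] at h
  exact h

theorem sum_mem_span {n : ℕ} (t : Fin n → G → ℚ) (a : Fin n → ℚ) :
    ∑ i, a i • t i ∈ Submodule.span ℚ (Set.range t) :=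
  Submodule.sum_mem _ fun i _ => Submodule.smul_mem _ _ (Submodule.subset_span ⟨i, rfl⟩)

theorem finrank_le_of_struct {R : Submodule ℚ (G → ℚ)} {n : ℕ} (hn : n ≤ 3) (t : Fin n → G → ℚ)
    (h : R ≤ Submodule.span ℚ (Set.range t)) : finrank ℚ R ≤ 3 :=
  (Submodule.finrank_mono h).trans ((finrank_span_le t).trans hn)

/-- The space of the third case has dimension at most two. -/
theorem finrank_tri {R : Submodule ℚ (G → ℚ)} (t : Fin 3 → G → ℚ)
    (h : ∀ F ∈ R, ∃ a : Fin 3 → ℚ, F = ∑ i, a i • t i ∧ ∑ i, a i = 0) : finrank ℚ R ≤ 2 := by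
  have h1 : R ≤ Submodule.span ℚ (Set.range ![t 0 - t 2, t 1 - t 2]) := by
    intro F hF
    obtain ⟨a, rfl, ha⟩ := h F hF
    rw [Fin.sum_univ_three] at ha
    have h2 : ∑ i, a i • t i = ∑ i : Fin 2, (![a 0, a 1] i) • (![t 0 - t 2, t 1 - t 2] i) := by
      rw [Fin.sum_univ_three, Fin.sum_univ_two]
      have h3 : a 2 = -(a 0 + a 1) := by linarith
      rw [h3]
      funext σ
      simp
      ring
    rw [h2]
    exact sum_mem_span _ _
  exact (Submodule.finrank_mono h1).trans (finrank_span_le _)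

end

theorem pair (h2 : S_irr) (h3 : S_proj) (h4 : S_struct) (h5 : S_cmp) : S_pair := by
  intro G _ _ c hc Q Q' hQ hQ' hne hn hn' F hF F' hF' hsum
  by_contra hcon
  have hst : ∀ g, ∀ F ∈ VV Q, rtr g F ∈ VV Q := fun g F hF => rtr_mem_VV hQ.stable g hF
  have hst' : ∀ g, ∀ F ∈ VV Q', rtr g F ∈ VV Q' := fun g F hF => rtr_mem_VV hQ'.stable g hF
  obtain ⟨F1, hF1, hd1⟩ := h3 G c hc (VV Q) hst F hF
  obtain ⟨F1', hF1', hd1'⟩ := h3 G c hc (VV Q') hst' F' hF'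
  have hq : F1 + F1' ∈ QQ c := by
    have e : F1 + F1' = (F + F') - (F - F1) - (F' - F1') := by abel
    rw [e]
    exact Submodule.sub_mem _ (Submodule.sub_mem _ hsum hd1.2) hd1'.2
  have hp : F1 + F1' ∈ Perp c := Submodule.add_mem _ hF1.2 hF1'.2
  have h0 : F1 + F1' = 0 := QQ_ext hq hp
  have hF1ne : F1 ≠ 0 := by
    intro h
    apply hcon
    have h6 := hd1.2
    rwa [h, sub_zero] at h6
  have hF1' : F1 ∈ VV Q' ⊓ Perp c := by
    have e : F1 = -F1' := eq_neg_of_add_eq_zero_left h0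
    rw [e]
    exact Submodule.neg_mem _ hF1'
  -- irreducibility
  have irr : ∀ Q'' : Set (Set G), IsOrbit c Q'' → finrank ℚ (VV Q'' ⊓ Perp c : Submodule ℚ (G → ℚ)) ≤ 3 →
      ∀ W ≤ VV Q'' ⊓ Perp c, (∀ g, ∀ F ∈ W, rtr g F ∈ W) → W = ⊥ ∨ W = VV Q'' ⊓ Perp c := by
    intro Q'' hQ'' hfr
    refine h2 G c hc _ ?_ ?_ ?_ hfr
    · intro F hF σ
      exact odd_of_mem_VV hQ''.half hF.1 σ
    · intro g F hF
      exact ⟨rtr_mem_VV hQ''.stable g hF.1, rtr_mem_Perp hc g hF.2⟩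
    · intro F hF hFq
      exact QQ_ext hFq hF.2
  have hfr : ∀ Q'' : Set (Set G), IsOrbit c Q'' → 2 < Q''.ncard →
      finrank ℚ (VV Q'' ⊓ Perp c : Submodule ℚ (G → ℚ)) ≤ 3 := by
    intro Q'' hQ'' hn''
    rcases h4 G c hc Q'' hQ'' hn'' with ⟨t, ht, -, hV, hR⟩ | ⟨t, ht, -, hV, hR⟩ |
      ⟨N, D, t, hN, ht, -, -, hR⟩
    · exact finrank_le_of_struct (by norm_num) t (by rw [hR, hV])
    · exact finrank_le_of_struct (by norm_num) t (by rw [hR, hV])
    · exact (finrank_tri t hR).trans (by norm_num)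
  have hW : (VV Q ⊓ Perp c) ⊓ (VV Q' ⊓ Perp c) ≠ ⊥ := by
    intro h
    apply hF1ne
    have h6 : F1 ∈ (VV Q ⊓ Perp c) ⊓ (VV Q' ⊓ Perp c) := ⟨hF1, hF1'⟩
    rw [h] at h6
    exact (Submodule.mem_bot ℚ).1 h6
  have hWst : ∀ g, ∀ F ∈ (VV Q ⊓ Perp c) ⊓ (VV Q' ⊓ Perp c),
      rtr g F ∈ (VV Q ⊓ Perp c) ⊓ (VV Q' ⊓ Perp c) := fun g F hF =>
    ⟨⟨hst g F hF.1.1, rtr_mem_Perp hc g hF.1.2⟩, ⟨hst' g F hF.2.1, rtr_mem_Perp hc g hF.2.2⟩⟩
  have e1 := (irr Q hQ (hfr Q hQ hn) _ inf_le_left hWst).resolve_left hW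
  have e2 := (irr Q' hQ' (hfr Q' hQ' hn') _ inf_le_right hWst).resolve_left hW
  have hRR : VV Q ⊓ Perp c = VV Q' ⊓ Perp c := e1.symm.trans e2
  -- the cases
  have ff : ∀ (d d' : ℕ) (t : Fin d → G → ℚ) (t' : Fin d' → G → ℚ), 0 < d' → FullT d t →
      FullT d' t' → (∀ i, ∃ S ∈ Q, t i = eps S) → (∀ i, ∃ S ∈ Q', t' i = eps S) →
      VV Q = Submodule.span ℚ (Set.range t) → VV Q' = Submodule.span ℚ (Set.range t') →
      VV Q ⊓ Perp c = VV Q → VV Q' ⊓ Perp c = VV Q' → False := by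
    intro d d' t t' hd ht ht' htQ htQ' hV hV' hR hR'
    have h6 : Submodule.span ℚ (Set.range t) = Submodule.span ℚ (Set.range t') := by
      rw [← hV, ← hV', ← hR, ← hR', hRR]
    obtain ⟨i, i', h7⟩ := h5.1 G d d' t t' hd ht ht' h6
    obtain ⟨S, hS, hSe⟩ := htQ i
    obtain ⟨S', hS', hSe'⟩ := htQ' i'
    rw [hSe, hSe'] at h7
    exact hne (orbit_eq' hQ hQ' hS hS' h7)
  have ft : ∀ (P P' : Set (Set G)) (d : ℕ) (t : Fin d → G → ℚ) (N : Subgroup G) (D : G → Fin 3)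
      (t' : Fin 3 → G → ℚ), (d = 2 ∨ d = 3) → FullT d t → TriT (chi N) D t' →
      VV P = Submodule.span ℚ (Set.range t) → VV P ⊓ Perp c = VV P →
      (∀ i, t' i - (1 / 3 : ℚ) • chi N ∈ VV P' ⊓ Perp c) →
      (∀ F ∈ VV P' ⊓ Perp c, ∃ a : Fin 3 → ℚ, F = ∑ i, a i • t' i ∧ ∑ i, a i = 0) →
      VV P ⊓ Perp c = VV P' ⊓ Perp c → False := by
    intro P P' d t N D t' hd ht ht' hV hR htm hta hPP
    rcases hd with rfl | rfl
    · refine h5.2.2 G (chi N) D t t' ht ht' fun k => ?_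
      rw [← hV, ← hR, hPP]
      exact htm k
    · have h6 : finrank ℚ (VV P' ⊓ Perp c : Submodule ℚ (G → ℚ)) ≤ 2 := finrank_tri t' hta
      rw [← hPP, hR, hV, finrank_span_eq_card (fullT_indep ht), Fintype.card_fin] at h6
      omega
  rcases h4 G c hc Q hQ hn with ⟨t, ht, htQ, hV, hR⟩ | ⟨t, ht, htQ, hV, hR⟩ |
      ⟨N, D, t, hN, ht, htQ, htm, hta⟩ <;>
    rcases h4 G c hc Q' hQ' hn' with ⟨t', ht', htQ', hV', hR'⟩ | ⟨t', ht', htQ', hV', hR'⟩ |
      ⟨N', D', t', hN', ht', htQ', htm', hta'⟩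
  · exact ff 2 2 t t' (by norm_num) ht ht' htQ htQ' hV hV' hR hR'
  · exact ff 2 3 t t' (by norm_num) ht ht' htQ htQ' hV hV' hR hR'
  · exact ft Q Q' 2 t N' D' t' (Or.inl rfl) ht ht' hV hR htm' hta' hRR
  · exact ff 3 2 t t' (by norm_num) ht ht' htQ htQ' hV hV' hR hR'
  · exact ff 3 3 t t' (by norm_num) ht ht' htQ htQ' hV hV' hR hR'
  · exact ft Q Q' 3 t N' D' t' (Or.inr rfl) ht ht' hV hR htm' hta' hRR
  · exact ft Q' Q 2 t' N D t (Or.inl rfl) ht' ht hV' hR' htm hta hRR.symm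
  · exact ft Q' Q 3 t' N D t (Or.inr rfl) ht' ht hV' hR' htm hta hRR.symm
  · have h6 := htm' 0
    rw [← hRR] at h6
    obtain ⟨a, ha, ha0⟩ := hta _ h6
    obtain ⟨i, h7⟩ := h5.2.1 G (chi N) (chi N') D D' t t' a ht ht' ha ha0
    obtain ⟨S, hS, hSe⟩ := htQ i
    obtain ⟨S', hS', hSe'⟩ := htQ' 0
    rw [hSe, hSe'] at h7
    exact hne (orbit_eq' hQ hQ' hS hS' h7)

end Pool.Agent.Q60.D3G
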