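import Mathlib
import Pool.Agent.Q60.D3Q.Stm
import Pool.Agent.Q299.D3Q.Polx
import Pool.Agent.Q180.WT.StmA
import Pool.Agent.Q180.UW.Defs
import Pool.Agent.W547.LD.Final
import Pool.Agent.H977R3.CM.Aut

/-!
# Project D3G: lemma jobs on abelian varieties

`L` is a Galois CM field, `j : L →+* ℂ`, `N` a subgroup of index two of the Galois group which does not
contain the complex conjugation (`IsImag N`), `S` a half system whose stabilizer is contained in `N`;
`single (pairOf j S hS)` is the abelian variety belonging to `S`.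
-/

namespace Pool.Agent.Q60.D3G

open NumberField Module Pool.Agent.H204R3.CM
open Pool.Agent.W547.KB (CMPair CMAV cc IsHalf Wt St mono trForm single Balanced)
open Pool.Agent.W547.LD (IsImag fld stab emb pairOf prodOf Orb orbWt)
open Pool.Agent.W547.LD.Comb (OrbT psum)
open Pool.Agent.Q60.D3 (AV IsHom IsSimple IsCM IsIsogenousToProd)
open Pool.Agent.Q60.D3E (IsoCM)
open Pool.Agent.Q180.WT (Gen GC KO)

/-- The product of abelian varieties of CM types as an abelian variety. -/
noncomputable abbrev av (X : CMAV) : AV := Pool.Agent.Q60.D3Q.avOf Pool.Agent.Q299.D3Q.polx X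

/-- JOB H1 ROOT. The imaginary quadratic field belonging to `N`.
Proof: `Pool.Agent.W547.LD.exists_sqrt` gives `δ₀`, `d₀ > 0`; write `d₀ = d * m ^ 2` with `d`
squarefree (`Nat.sq_mul_squarefree`), `δ = δ₀ / m`. -/
def S_root : Prop :=
  ∀ (L : Type) [Field L] [NumberField L] [IsCMField L] [IsGalois ℚ L] (_ : L →+* ℂ)
    (N : Subgroup (L ≃ₐ[ℚ] L)), IsImag N →
    ∃ (δ : L) (d : ℕ), Squarefree d ∧ δ * δ = -(d : L) ∧ ∀ τ ∈ N, τ δ = δ

/-- JOB H2 LAP. The alternation of a product of determinants is a multiple of the alternation of the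
product of the linear forms.
Proof: expand `F v = ∑ π, ∏ i, sign (π i) ∏ a, ℓ (e ⟨i, a⟩) (v (e ⟨i, π i a⟩))` over the families `π i` of
permutations of `Fin (n i)` (`Matrix.det_apply`, `Finset.prod_univ_sum`), i.e.
`F = ∑ π, sign ρ(π) • G.domDomCongr ...` for the permutation `ρ(π)` of `κ` (conjugate by `e` of
`Equiv.sigmaCongrRight π` or `Equiv.Perm.sigmaCongrRight`, `Equiv.Perm.sign_sigmaCongrRight`?), and
the alternation of each summand is the alternation of `G`, as in `Pool.Agent.W547.KB.mono_cup`. -/
def S_lap : Prop :=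
  ∀ (H : Type) [AddCommGroup H] [Module ℚ H] (κ : Type) [Fintype κ] [DecidableEq κ] (m : ℕ)
    (n : Fin m → ℕ) (e : (Σ i : Fin m, Fin (n i)) ≃ κ) (ℓ : κ → (H →ₗ[ℚ] ℂ))
    (F G : MultilinearMap ℚ (fun _ : κ => H) ℂ),
    (∀ v, F v = ∏ i, (Matrix.of fun a b : Fin (n i) => ℓ (e ⟨i, b⟩) (v (e ⟨i, a⟩))).det) →
    (∀ v, G v = ∏ k, ℓ k (v k)) →
    MultilinearMap.alternatization F =
      ((∏ i, (n i).factorial : ℕ) : ℂ) • MultilinearMap.alternatization G

/-- JOB H3 TRC. From the monomials to the trace forms.
Proof: `trForm α I v = ∑ τ, τ (α * mono I v)` over the Galois group (`trForm_apply`,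
`trace_eq_sum_automorphisms`), so `cx (trForm α I) = ∑ τ, F τ` with
`F τ v = j (τ (α * mono I v)) = σ τ (j α * G v)`, `σ τ` an automorphism of `ℂ` with
`σ τ (j x) = j (τ x)` (`Pool.Agent.H977R3.CM.Aut`). The space `GC` is stable under the automorphisms
`σ` of `ℂ`: it is spanned by forms with rational values (`Submodule.span_induction` for: every `F'`
with `F' v = σ (F v)` is in `GC`). Hence `cx (trForm α I) ∈ GC`, and the hypothesis `S_desc` (proved:
`Pool.Agent.Q121.WT.desc`) gives the claim. -/
def S_trc : Prop :=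
  ∀ (𝒟 : Set ℕ) (X : CMAV) (L : Type) [Field L] [NumberField L] [IsCMField L] [IsGalois ℚ L]
    (j : L →+* ℂ) (κ : Type) [Fintype κ] [DecidableEq κ] (I : κ → Wt X L)
    (G : (av X).H [⋀^κ]→ₗ[ℚ] ℂ), (∀ v : κ → X.H1, G v = j (mono I v)) → G ∈ GC 𝒟 (av X) κ →
    ∀ α : L, Gen 𝒟 (av X) κ (trForm α I)

/-- JOB H4 CKO. The determinant form of a half system `S`, `[N : stab S] = n`.
Proof: `n = Nat.card (OrbT N S)`; `dimA` from `Pool.Agent.W547.LD.finrank_prodOf` (for
`Q = Unit`, `Equiv.uniqueSigma`, as in `algX_one`, `Pool/Agent/W547/LD/Final.lean`) and `AV.dim`;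
`φ` is the multiplication by `δ ∈ fld S` (`mem_fld`; `mulBy`, `isHom_mulBy`, `mulBy_mulBy`, for
`Q = Unit`: `prodOf j (fun _ : Unit => S) _ = single (pairOf j S hS)` definitionally); `δ` the
determinant (alternating: composition of `Matrix.detRowAlternating` with the linear map
`w ↦ (b ↦ j ((e b).2.choose (w ())))`; compare `mono_eq_det`), `eig` as `mono_scale` (each `(e b).2.choose`
is in `N` and fixes `δ`). The weight: `j ∘ τ` for `τ = (e b).2.choose`, is `j.comp (emb S τ)`, which is in
the type `typ j S` iff `τ ∈ S` (`mem_typ`), iff `1 ∈ tr τ S = (e b).1`; if it is in the type the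
form `w ↦ j (τ (w ()))` is the composition of `per` with a coordinate of the tangent space (weight
`1`), otherwise its complex conjugate is such a composition (`conj_emb`), and the weight is `-1`. The product
over `b` of these forms has the weight `∑ b, (± 1) = psum N S 1` (`psum N S 1 = ∑ T : OrbT N S, eps T 1`), and
so has the determinant. `hs`: for `n = 1` the sum has one term. -/
def S_cko : Prop :=
  ∀ (L : Type) [Field L] [NumberField L] [IsCMField L] [IsGalois ℚ L] (j : L →+* ℂ)
    (N : Subgroup (L ≃ₐ[ℚ] L)), IsImag N → ∀ (δ : L) (d : ℕ), Squarefree d →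
    δ * δ = -(d : L) → (∀ τ ∈ N, τ δ = δ) → ∀ (S : Set (L ≃ₐ[ℚ] L)) (hS : IsHalf S), stab S ≤ N →
    ∀ (n : ℕ) (e : Fin n ≃ OrbT N S), ∃ K : KO (av (single (pairOf j S hS))) n,
      K.d = d ∧ K.μ = j δ ∧ (by classical exact ((K.s : ℚ) = psum N S 1)) ∧
      ∀ v : Fin n → (single (pairOf j S hS)).H1, K.δ v =
        (Matrix.of fun a b : Fin n => j (emb S (e b).2.choose (show fld S from v a ()))).det

/-- JOB H5 CORE (hypotheses: the lemmas above, `Pool.Agent.Q180.WT.S_bal`, proved as
`Pool.Agent.Q180.WT.bal`). The classes of balanced unions of two orbits of order one or three.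
Proof: let `n q = Nat.card (OrbT N (x q))`, `δ`, `d` from `S_root`, `K q` the data from `S_cko` for
`x q`. Let `M` be the monomial (`Pool.Agent.Q180.WT.Mon`) on `X = av (prodOf j x hx)` with `m = 2`
determinants `K false`, `K true`, the homomorphisms `h` all equal to the projections to the factors,
and no bilinear forms (`p = 0`), `e : (Σ i : Fin 2, Fin (n i)) ⊕ (Fin 0 × Fin 2) ≃ Orb N x`. `hD`: if
`n q ≠ 1` then `n q = 3` and the weight `s` is odd, of absolute value `1` or `3`; it is not `± 3`:
otherwise `1` is in all elements of the orbit of `x q` or in none, so `N ⊆ x q` or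
`N ∩ x q = ∅`, and `x q = N` or its complement because `x q` is a half system, and the orbit has only
one element; so `3 + |s| = 4 = 2 * 2`. The monomial is balanced: the weights have sum
`psum N (x false) 1 + psum N (x true) 1 = 0` by the hypothesis `Balanced` at `1` (`balanced_iff`,
`Pool/Agent/W547/LD/Final.lean`; `Fintype.sum_sigma`). By `S_bal` the alternation of the product of
the two determinants is in `GC`; by `S_lap` it is a nonzero multiple of the alternation of
`v ↦ ∏ k, j (ev (v k) (orbWt j N x hx k))`, that is of `v ↦ j (mono (orbWt j N x hx) v)`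
(`mono_apply`); `S_trc`. -/
def S_core : Prop :=
  ∀ (𝒟 : Set ℕ), 2 ∈ 𝒟 → ∀ (L : Type) [Field L] [NumberField L] [IsCMField L] [IsGalois ℚ L]
    (j : L →+* ℂ) (N : Subgroup (L ≃ₐ[ℚ] L)) (x : Bool → Set (L ≃ₐ[ℚ] L)) (hx : ∀ q, IsHalf (x q))
    [DecidableEq (Orb N x)] [Fintype (Orb N x)], IsImag N → (∀ q, stab (x q) ≤ N) →
    (∀ q, Nat.card (OrbT N (x q)) = 1 ∨ Nat.card (OrbT N (x q)) = 3) →
    Balanced (fun k : Orb N x => k.2.1) → ∀ α : L,
    Gen 𝒟 (av (prodOf j x hx)) (Orb N x) (trForm α (orbWt j N x hx))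

/-- JOB H6 W2W. Weil classes of quadratic CM fields in the sense of project UW are Weil classes in the
sense of project WT.
Proof: `P = a x² + b x + c` is irreducible of degree two; it has no real roots (a root `μ` satisfies
`starRingEnd ℂ μ ≠ μ`), so `b² - 4 a c < 0`; multiplying `P` by a common denominator, `a`, `b`, `c` are
integers. `h' = 2 a h + b` satisfies `h' ^ 2 = b² - 4 a c = -d`. A linear combination of `h` and `1`
may also be moved in `f`, and is a homomorphism; `ψ = 2 a χ + b` for the elliptic curve. -/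
def S_w2w : Prop :=
  ∀ (M : ℕ) (Y : AV) (f : Y.H [⋀^Fin (2 * M)]→ₗ[ℚ] ℚ), Pool.Agent.Q180.UW.IsWeilClass 2 M Y f →
    Pool.Agent.Q180.WT.IsWeilClass M Y f

/-- JOB H7 UNI. Abelian varieties of unitary type of dimension at most three or of prime dimension.
Proof: the degree `e` of the CM field `ℚ[x] / (P)` is even and positive: the roots of `P` in `ℂ` are
simple (`P` is irreducible), their number is `e`, and complex conjugation acts on them without fixed points
(or: a real polynomial of odd degree has a real root). `2 dim A = e n`, `n ≥ 3`, so with `e = 2 e'`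
`dim A = e' n`. If `dim A ≤ 3` then `n = 3`, `e = 2`, `dim A = 3`; the multiplicities `p`, `q` of the
two roots `μ`, `μ̄` are at least `1` with sum `3` (the eigenspaces of the operator `C`, which is
annihilated by `P`: `C` is diagonalizable, `mult C μ + mult C μ̄ = dim`; in `IsUnitary` the operator
`C` satisfies `C (per w) = per (φ w)`, `aeval φ P = 0` and the image of `per` spans the tangent
space; compare `Pool.Agent.Q275.UW` and `Pool.Agent.Q144.UW` for the same computation), so they are
at most `2`, and `IsUnitary A 2 2` with the same data. If `dim A` is a prime number then `e' = 1`, as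
`n ≥ 3`. -/
def S_uni : Prop :=
  ∀ (A : AV) (e M : ℕ), Pool.Agent.Q180.UW.IsUnitary A e M →
    (finrank ℂ A.T ≤ 3 → finrank ℂ A.T = 3 ∧ Pool.Agent.Q180.UW.IsUnitary A 2 2) ∧
    ((finrank ℂ A.T).Prime → e = 2)

/-- JOB H8 ISO. Products of products of abelian varieties of CM types.
Proof: choose the `X i`; the product has the index set `Σ i, (X i).I`. Compare
`Pool.Agent.Q237.D3E.prod'` (two factors) and `exists_cp` in `Pool/Agent/Q60/D3E/Asm.lean`. The tangent
map: `IsIsogenousToProd` gives homomorphisms `p i` with tangent maps `C i`; the product of the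
`C i : Y.T → ∏ (B i).T` is bijective: the images of `per` span over `ℝ`, so it is surjective, and the
dimensions are equal (`AV.dim`). -/
def S_iso : Prop :=
  ∀ (P : CMPair → Prop) (ι : Type) [Finite ι] (Y : AV) (B : ι → AV), IsIsogenousToProd Y B →
    (∀ i, ∃ X : CMAV, (∀ k, P (X.factor k)) ∧ IsoCM (B i) X) →
    ∃ X : CMAV, (∀ k, P (X.factor k)) ∧ IsoCM Y X

end Pool.Agent.Q60.D3G
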