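import Mathlib
import Pool.Agent.Q60.D3G.StmA

/-!
# The generated classes on products of abelian varieties of CM types
-/

namespace Pool.Agent.Q60.D3G

open NumberField Module Pool.Agent.H204R3.CM
open Pool.Agent.W547.KB (CMPair CMAV)
open Pool.Agent.Q180.WT (Gen)

/-- The generated classes on the product `X`. -/
def R (𝒟 : Set ℕ) (X : CMAV) (κ : Type) (f : X.H1 [⋀^κ]→ₗ[ℚ] ℚ) : Prop := Gen 𝒟 (av X) κ f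

namespace R

variable {𝒟 : Set ℕ} {X Y : CMAV} {κ κ' : Type}

theorem unit [IsEmpty κ] (f : X.H1 [⋀^κ]→ₗ[ℚ] ℚ) : R 𝒟 X κ f := Gen.unit (X := av X) f

theorem divisor (hκ : Nat.card κ = 2) (f : X.H1 [⋀^κ]→ₗ[ℚ] ℚ) (hf : IsHodge X.per f) :
    R 𝒟 X κ f := Gen.divisor (X := av X) hκ f hf

theorem zero (κ : Type) : R 𝒟 X κ 0 := Gen.zero (av X) κ

theorem add (f g : X.H1 [⋀^κ]→ₗ[ℚ] ℚ) (hf : R 𝒟 X κ f) (hg : R 𝒟 X κ g) : R 𝒟 X κ (f + g) :=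
  Gen.add (X := av X) f g hf hg

theorem smul (a : ℚ) (f : X.H1 [⋀^κ]→ₗ[ℚ] ℚ) (hf : R 𝒟 X κ f) : R 𝒟 X κ (a • f) :=
  Gen.smul (X := av X) a f hf

theorem reindex (e : κ ≃ κ') (f : X.H1 [⋀^κ]→ₗ[ℚ] ℚ) (hf : R 𝒟 X κ f) :
    R 𝒟 X κ' (f.domDomCongr e) := Gen.reindex (X := av X) e f hf

theorem cup [Fintype κ] [DecidableEq κ] [Fintype κ'] [DecidableEq κ']
    (f : X.H1 [⋀^κ]→ₗ[ℚ] ℚ) (g : X.H1 [⋀^κ']→ₗ[ℚ] ℚ) (hf : R 𝒟 X κ f) (hg : R 𝒟 X κ' g)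
    (h : X.H1 [⋀^κ ⊕ κ']→ₗ[ℚ] ℚ)
    (hh : ∀ v : κ ⊕ κ' → X.H1, h v = ∑ σ : Equiv.Perm (κ ⊕ κ'), ((Equiv.Perm.sign σ : ℤ) : ℚ) *
      (f (fun k => v (σ (Sum.inl k))) * g (fun k => v (σ (Sum.inr k))))) :
    R 𝒟 X (κ ⊕ κ') h := Gen.cup (X := av X) f g hf hg h hh

theorem pull (h : X.H1 →ₗ[ℚ] Y.H1) (hh : Pool.Agent.W547.KB.IsHom X Y h) (f : Y.H1 [⋀^κ]→ₗ[ℚ] ℚ)
    (hf : R 𝒟 Y κ f) : R 𝒟 X κ (f.compLinearMap h) :=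
  Gen.pull (X := av X) (Y := av Y) h hh f hf

end R

end Pool.Agent.Q60.D3G
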