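import Mathlib
import Pool.Agent.Q60.D3G.RDefs
import Pool.Agent.W547.LD.Final
import Pool.Agent.W547.KB.Canon
import Pool.Agent.W547.KB.Cancel
import Pool.Agent.W547.KB.RelTrace

/-!
# The span of the generated classes over a number field (after the corresponding file of project LD)
-/

set_option linter.unusedSectionVars false
set_option linter.unusedVariables false

namespace Pool.Agent.Q60.D3G

open NumberField Pool.Agent.H204R3.CM Equiv Module
open Pool.Agent.W547.KB hiding Gen IsHom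

noncomputable section

variable {𝒟 : Set ℕ} {L : Type} [Field L] [NumberField L] {X Y : CMAV} {κ κ' : Type}

/-- The span over `L` of the classes of the ring. -/
def LR (𝒟 : Set ℕ) (L : Type) [Field L] [NumberField L] (X : CMAV) (κ : Type) :
    Submodule L ((κ → X.H1) → L) :=
  Submodule.span L {g | ∃ f : X.H1 [⋀^κ]→ₗ[ℚ] ℚ, R 𝒟 X κ f ∧ g = fun v => ((f v : ℚ) : L)}

theorem LR.of_ring {f : X.H1 [⋀^κ]→ₗ[ℚ] ℚ} (hf : R 𝒟 X κ f) :
    (fun v => ((f v : ℚ) : L)) ∈ LR 𝒟 L X κ :=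
  Submodule.subset_span ⟨f, hf, rfl⟩

theorem LR.unit [IsEmpty κ] (F : (κ → X.H1) → L) : F ∈ LR 𝒟 L X κ := by
  have h1 : F = F (fun k => isEmptyElim k) • (fun v =>
      (((AlternatingMap.constOfIsEmpty ℚ X.H1 κ (1 : ℚ)) v : ℚ) : L)) := by
    funext v
    have h2 : v = fun k => isEmptyElim k := funext fun k => isEmptyElim k
    subst h2
    simp
  rw [h1]
  exact Submodule.smul_mem _ _ (LR.of_ring (R.unit _))

theorem LR.reindex (e : κ ≃ κ') {F : (κ → X.H1) → L} (hF : F ∈ LR 𝒟 L X κ) :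
    (fun v : κ' → X.H1 => F (fun k => v (e k))) ∈ LR 𝒟 L X κ' := by
  induction hF using Submodule.span_induction with
  | mem F hF =>
    obtain ⟨f, hf, rfl⟩ := hF
    exact LR.of_ring (R.reindex e f hf)
  | zero => exact Submodule.zero_mem _
  | add F G _ _ hF hG => exact Submodule.add_mem _ hF hG
  | smul c F _ hF => exact Submodule.smul_mem _ c hF

theorem LR.cup [Fintype κ] [DecidableEq κ] [Fintype κ'] [DecidableEq κ']
    {F : (κ → X.H1) → L} {G : (κ' → X.H1) → L} (hF : F ∈ LR 𝒟 L X κ) (hG : G ∈ LR 𝒟 L X κ') :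
    cupFun F G ∈ LR 𝒟 L X (κ ⊕ κ') := by
  induction hF using Submodule.span_induction with
  | mem F hF =>
    obtain ⟨f, hf, rfl⟩ := hF
    induction hG using Submodule.span_induction with
    | mem G hG =>
      obtain ⟨g, hg, rfl⟩ := hG
      have h1 : cupFun (fun v => ((f v : ℚ) : L)) (fun v => ((g v : ℚ) : L)) =
          fun v => ((cupAlt f g v : ℚ) : L) := by
        funext v
        rw [cupAlt_apply]
        unfold cupFun
        push_cast
        rfl
      rw [h1]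
      exact LR.of_ring (R.cup f g hf hg _ (cupAlt_apply f g))
    | zero =>
      have h1 : cupFun (fun v => ((f v : ℚ) : L)) (0 : (κ' → X.H1) → L) = 0 := by
        funext v
        simp [cupFun]
      rw [h1]
      exact Submodule.zero_mem _
    | add G G' _ _ hG hG' =>
      have h1 : cupFun (fun v => ((f v : ℚ) : L)) (G + G') =
          cupFun (fun v => ((f v : ℚ) : L)) G + cupFun (fun v => ((f v : ℚ) : L)) G' := by
        funext v
        simp only [cupFun, Pi.add_apply, mul_add, Finset.sum_add_distrib]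
      rw [h1]
      exact Submodule.add_mem _ hG hG'
    | smul c G _ hG =>
      have h1 : cupFun (fun v => ((f v : ℚ) : L)) (c • G) =
          c • cupFun (fun v => ((f v : ℚ) : L)) G := by
        funext v
        simp only [cupFun, Pi.smul_apply, smul_eq_mul, Finset.mul_sum]
        exact Finset.sum_congr rfl fun σ _ => by ring
      rw [h1]
      exact Submodule.smul_mem _ c hG
  | zero =>
    have h1 : cupFun (0 : (κ → X.H1) → L) G = 0 := by
      funext v
      simp [cupFun]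
    rw [h1]
    exact Submodule.zero_mem _
  | add F F' _ _ hF hF' =>
    have h1 : cupFun (F + F') G = cupFun F G + cupFun F' G := by
      funext v
      simp only [cupFun, Pi.add_apply, mul_add, add_mul, Finset.sum_add_distrib]
    rw [h1]
    exact Submodule.add_mem _ hF hF'
  | smul c F _ hF =>
    have h1 : cupFun (c • F) G = c • cupFun F G := by
      funext v
      simp only [cupFun, Pi.smul_apply, smul_eq_mul, Finset.mul_sum]
      exact Finset.sum_congr rfl fun σ _ => by ring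
    rw [h1]
    exact Submodule.smul_mem _ c hF

/-- Descent. -/
theorem r_of_LR [Fintype κ] {f : X.H1 [⋀^κ]→ₗ[ℚ] ℚ}
    (hf : (fun v => ((f v : ℚ) : L)) ∈ LR 𝒟 L X κ) : R 𝒟 X κ f := by
  let S : Set ((κ → X.H1) → ℚ) := {g | ∃ f : X.H1 [⋀^κ]→ₗ[ℚ] ℚ, R 𝒟 X κ f ∧ g = fun v => f v}
  have h1 : (fun v => ((f v : ℚ) : L)) ∈
      Submodule.span L {g : (κ → X.H1) → L | ∃ s ∈ S, g = fun x => ((s x : ℚ) : L)} := by
    refine Submodule.span_mono ?_ hf
    rintro g ⟨f, hf, rfl⟩
    exact ⟨fun v => f v, ⟨f, hf, rfl⟩, rfl⟩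
  have h2 := span_descent S (fun v => f v) h1
  have h3 : ∀ g ∈ Submodule.span ℚ S, ∃ f : X.H1 [⋀^κ]→ₗ[ℚ] ℚ, R 𝒟 X κ f ∧ g = fun v => f v := by
    intro g hg
    induction hg using Submodule.span_induction with
    | mem g hg => exact hg
    | zero => exact ⟨0, R.zero κ, rfl⟩
    | add g g' _ _ h h' =>
      obtain ⟨f, hf, rfl⟩ := h
      obtain ⟨f', hf', rfl⟩ := h'
      exact ⟨f + f', R.add f f' hf hf', rfl⟩
    | smul c g _ h =>
      obtain ⟨f, hf, rfl⟩ := h
      exact ⟨c • f, R.smul c f hf, rfl⟩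
  obtain ⟨f', hf', h4⟩ := h3 _ h2
  have h5 : f = f' := AlternatingMap.ext fun v => congrFun h4 v
  rw [h5]
  exact hf'

theorem mono_mem_LR [Fintype κ] [DecidableEq κ] (I : κ → Wt X L)
    (h : ∀ α : L, R 𝒟 X κ (trForm α I)) : mono I ∈ LR 𝒟 L X κ := by
  obtain ⟨n, a, b, hab⟩ := exists_dual L
  have h1 : mono I = ∑ i, b i • (fun v : κ → X.H1 => ((trForm (a i) I v : ℚ) : L)) := by
    funext v
    rw [Finset.sum_apply]
    exact hab (mono I v)
  rw [h1]
  exact Submodule.sum_mem _ fun i _ => Submodule.smul_mem _ _ (LR.of_ring (h (a i)))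

section alg

variable [IsCMField L] [IsGalois ℚ L] [Fintype κ] [DecidableEq κ] [Fintype κ'] [DecidableEq κ']

/-- All monomials on `X` with the given types are in the span of the ring. -/
def AlgR (𝒟 : Set ℕ) (X : CMAV) (j : L →+* ℂ) (s : κ → Set (L ≃ₐ[ℚ] L)) : Prop :=
  ∀ I : κ → Wt X L, (∀ k, St j (I k) = s k) → mono I ∈ LR 𝒟 L X κ

theorem algR_reindex {j : L →+* ℂ} (e : κ ≃ κ') {s : κ → Set (L ≃ₐ[ℚ] L)}
    {s' : κ' → Set (L ≃ₐ[ℚ] L)} (hs : AlgR 𝒟 X j s) (h : ∀ k, s' (e k) = s k) : AlgR 𝒟 X j s' := by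
  intro I hI
  have h1 := hs (fun k => I (e k)) (fun k => by rw [hI, h])
  have h2 := LR.reindex e h1
  rw [mono_reindex] at h2
  simpa using h2

theorem algR_sum {j : L →+* ℂ} {s : κ → Set (L ≃ₐ[ℚ] L)} {s' : κ' → Set (L ≃ₐ[ℚ] L)}
    (hs : AlgR 𝒟 X j s) (hs' : AlgR 𝒟 X j s') : AlgR 𝒟 X j (Sum.elim s s') := by
  intro I hI
  have h1 := hs (fun k => I (Sum.inl k)) (fun k => hI (Sum.inl k))
  have h2 := hs' (fun k => I (Sum.inr k)) (fun k => hI (Sum.inr k))
  have h3 := LR.cup h1 h2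
  rw [mono_cup] at h3
  have h4 : (Fintype.card (Perm κ) : L) * (Fintype.card (Perm κ') : L) ≠ 0 := by
    rw [← Nat.cast_mul]
    exact Nat.cast_ne_zero.2 (Nat.mul_ne_zero Fintype.card_ne_zero Fintype.card_ne_zero)
  have h5 := Submodule.smul_mem _ (((Fintype.card (Perm κ) : L) * (Fintype.card (Perm κ') : L))⁻¹) h3
  rw [smul_smul, inv_mul_cancel₀ h4, one_smul] at h5
  have h6 : Sum.elim (fun k => I (Sum.inl k)) (fun k => I (Sum.inr k)) = I := by
    funext s
    cases s <;> rfl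
  rwa [h6] at h5

theorem algR_empty [IsEmpty κ] (j : L →+* ℂ) (s : κ → Set (L ≃ₐ[ℚ] L)) : AlgR 𝒟 X j s :=
  fun I hI => LR.unit _

theorem algR_two (j : L →+* ℂ) (hκ : Nat.card κ = 2) {s : κ → Set (L ≃ₐ[ℚ] L)}
    (hs : Balanced s) : AlgR 𝒟 X j s := by
  intro I hI
  have h1 : (fun k => St j (I k)) = s := funext hI
  refine mono_mem_LR I fun α => R.divisor hκ _ ?_
  exact isHodge_trForm j I (by rw [h1]; exact hs) α

theorem algR_pair (j : L →+* ℂ) (S : Set (L ≃ₐ[ℚ] L)) : AlgR 𝒟 X j ![S, Sᶜ] := by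
  refine algR_two j (by simp) fun σ => ?_
  by_cases h : σ ∈ S <;> simp [Fin.sum_univ_two, h]

theorem algR_split {j : L →+* ℂ} {s : κ → Set (L ≃ₐ[ℚ] L)} (a b : κ) (hab : a ≠ b)
    (hs : s b = (s a)ᶜ) (h : AlgR 𝒟 X j (fun x : {x : κ // x ≠ a ∧ x ≠ b} => s x.1)) :
    AlgR 𝒟 X j s := by
  refine algR_reindex (splitTwo a b hab) (algR_sum h (algR_pair j (s a))) ?_
  rintro (x | x)
  · rfl
  · fin_cases x
    · rfl
    · exact hs

end alg

end

end Pool.Agent.Q60.D3G
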