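import Mathlib
import Pool.Agent.Q60.D3G.RSpan
import Pool.Agent.Q60.D3G.StmC
import Pool.Agent.W547.LN.Main

/-!
# Decomposition of balanced families of half systems in several orbits, and the Hodge classes on
products of abelian varieties of CM types (after projects LD, LF, LN)
-/

set_option linter.unusedSectionVars false
set_option linter.unusedVariables false

namespace Pool.Agent.Q60.D3G

open NumberField Pool.Agent.H204R3.CM Equiv Module
open Pool.Agent.W547.KB hiding Gen IsHom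
open Pool.Agent.W547.LD hiding tr stab
open Pool.Agent.W547.LN (SameType hs_injective normalClosure_le range_eq_of_galois range_eq_of_sameType)

noncomputable section

variable {𝒟 : Set ℕ} {L : Type} [Field L] [NumberField L] [IsCMField L] [IsGalois ℚ L]

section family

variable {κ κ' : Type} [Fintype κ] [DecidableEq κ] [Fintype κ'] [DecidableEq κ'] {X : CMAV}

/-- Split off a subfamily. -/
theorem algR_of_sub {j : L →+* ℂ} {s : κ → Set (L ≃ₐ[ℚ] L)} {t : κ' → Set (L ≃ₐ[ℚ] L)}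
    (e : κ' → κ) (he : Function.Injective e) (hst : ∀ k, s (e k) = t k) (ht : AlgR 𝒟 X j t)
    [DecidablePred (· ∈ Set.range e)]
    (hrest : AlgR 𝒟 X j (fun k : ((Set.range e)ᶜ : Set κ) => s k.1)) : AlgR 𝒟 X j s := by
  refine algR_reindex ((Equiv.sumCongr (Equiv.ofInjective e he) (Equiv.refl _)).trans
    (Equiv.Set.sumCompl (Set.range e))) (algR_sum ht hrest) ?_
  rintro (k | k)
  · exact hst k
  · rfl

end family

/-- If each balanced family without complementary pairs contains a block, all balanced families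
are decomposed. -/
theorem algR_of_blocks (j : L →+* ℂ) (X : CMAV) (R : Set (L ≃ₐ[ℚ] L) → Prop)
    (hblock : ∀ (κ : Type) [Fintype κ] [DecidableEq κ] [Nonempty κ] (s : κ → Set (L ≃ₐ[ℚ] L)),
      (∀ k, R (s k)) → Balanced s → (∀ k l, s l ≠ (s k)ᶜ) →
      ∃ (κ' : Type) (_ : Fintype κ') (_ : DecidableEq κ') (t : κ' → Set (L ≃ₐ[ℚ] L)),
        Nonempty κ' ∧ Balanced t ∧ AlgR 𝒟 X j t ∧ ∀ k', cnt t (t k') ≤ cnt s (t k')) (n : ℕ) :
    ∀ (κ : Type) [Fintype κ] [DecidableEq κ], Fintype.card κ = n →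
      ∀ s : κ → Set (L ≃ₐ[ℚ] L), (∀ k, R (s k)) → Balanced s → AlgR 𝒟 X j s := by
  classical
  induction n using Nat.strong_induction_on with
  | _ n ih =>
    intro κ _ _ hn s hs hbal
    rcases isEmpty_or_nonempty κ with he | hne
    · exact algR_empty j s
    by_cases hpair : ∃ a b, s b = (s a)ᶜ
    · obtain ⟨a, b, hab⟩ := hpair
      have hne : a ≠ b := by
        rintro rfl
        exact ne_compl _ hab
      have hcard' := card_split a b hne
      exact algR_split a b hne hab (ih _ (by omega) _ rfl _ (fun k => hs k.1)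
        (balanced_rest hbal a b hne hab))
    · push Not at hpair
      obtain ⟨κ', _, _, t, ⟨k0⟩, ht, hAt, hcnt⟩ := hblock κ s hs hbal hpair
      obtain ⟨e, hinj, he⟩ := exists_embedding' s t hcnt
      refine algR_of_sub e hinj he hAt ?_
      refine ih _ ?_ _ rfl _ (fun k => hs k.1) (balanced_of_sub e hinj he hbal ht)
      rw [← hn]
      refine Fintype.card_subtype_lt (x := e k0) ?_
      intro h
      exact h ⟨_, rfl⟩

/-- The monomials belonging to a balanced union of two orbits. -/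
theorem algR_orb (hcore : S_core) (h2 : 2 ∈ 𝒟) (j : L →+* ℂ) (N : Subgroup (L ≃ₐ[ℚ] L))
    (x : Bool → Set (L ≃ₐ[ℚ] L)) (hx : ∀ q, IsHalf (x q)) [DecidableEq (Orb N x)]
    [Fintype (Orb N x)] (hN : IsImag N) (hst : ∀ q, Pool.Agent.W547.LD.stab (x q) ≤ N)
    (hn : ∀ q, Nat.card (Comb.OrbT N (x q)) = 1 ∨ Nat.card (Comb.OrbT N (x q)) = 3)
    (hbal : Balanced (fun k : Orb N x => k.2.1)) (X : CMAV) :
    AlgR 𝒟 X j (fun k : Orb N x => k.2.1) := by
  intro I hI
  refine mono_mem_of_pull j I (fun k => orbWt j N x hx k) (orbWt_injective j N x hx)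
    (fun k => by rw [hI, St_orbWt]) _ ?_
  intro g hg
  obtain ⟨m, a, b, hab⟩ := exists_dual L
  have h3 : (fun v : Orb N x → X.H1 => mono (fun k => orbWt j N x hx k)
      (fun a => g (v a))) = ∑ i, b i • (fun v : Orb N x → X.H1 =>
        ((((trForm (a i) (fun k => orbWt j N x hx k)).compLinearMap g) v : ℚ) : L)) := by
    funext v
    rw [Finset.sum_apply]
    exact hab _
  rw [h3]
  refine Submodule.sum_mem _ fun i _ => Submodule.smul_mem _ _ (LR.of_ring ?_)
  exact R.pull g hg _ (hcore 𝒟 h2 L j N x hx hN hst hn hbal (a i))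

open Classical in
theorem block_family (htwo : S_two) (hcore : S_core) (hD : 2 ∈ 𝒟) (j : L →+* ℂ) (O : Finset (Set (Set (L ≃ₐ[ℚ] L))))
    (hO : ∀ Q ∈ O, Comb.IsOrbit (cc L) Q)
    (hdisj : ∀ Q ∈ O, ∀ Q' ∈ O, Q ≠ Q' → Disjoint Q Q')
    (hker : ∀ Q ∈ O, ∀ Q' ∈ O, ∀ Q'' ∈ O, 2 < Q.ncard → 2 < Q'.ncard → 2 < Q''.ncard →
      Comb.kerP Q = Comb.kerP Q' → Comb.kerP Q' = Comb.kerP Q'' → Q = Q' ∨ Q' = Q'' ∨ Q = Q'')
    (X : CMAV) (κ : Type) [Fintype κ] [DecidableEq κ] [Nonempty κ] (s : κ → Set (L ≃ₐ[ℚ] L))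
    (hs : ∀ k, ∃ Q ∈ O, s k ∈ Q) (hbal : Balanced s) (hpair : ∀ k l, s l ≠ (s k)ᶜ) :
      ∃ (κ' : Type) (_ : Fintype κ') (_ : DecidableEq κ') (t : κ' → Set (L ≃ₐ[ℚ] L)),
        Nonempty κ' ∧ Balanced t ∧ AlgR 𝒟 X j t ∧ ∀ k', cnt t (t k') ≤ cnt s (t k') := by
  obtain ⟨k0⟩ : Nonempty κ := inferInstance
  let P : Set (Set (L ≃ₐ[ℚ] L)) := {S | ∃ Q ∈ O, S ∈ Q}
  have hcompl : ∀ S ∈ P, Sᶜ ∈ P := by
    rintro S ⟨Q, hQ, hS⟩
    exact ⟨Q, hQ, (hO Q hQ).compl S hS⟩
  have ha := isRel_cnt hcompl s hs hbal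
  set a : Set (L ≃ₐ[ℚ] L) → ℚ := fun S => cnt s S - cnt s Sᶜ with hadef
  have hone : ∀ S, 0 < a S → 1 ≤ cnt s S := by
    intro S hS
    have h1 := cnt_nonneg s Sᶜ
    have h2 : 0 < cnt s S := by
      change 0 < cnt s S - cnt s Sᶜ at hS
      linarith
    rw [cnt_eq] at h2 ⊢
    have h3 : 0 < Nat.card {k // s k = S} := by exact_mod_cast h2
    exact_mod_cast h3
  have ha0 : a ≠ 0 := by
    intro h
    have h1 : a (s k0) = cnt s (s k0) := by
      change cnt s (s k0) - cnt s (s k0)ᶜ = _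
      rw [cnt_eq_zero s _ (hpair k0), sub_zero]
    rw [h] at h1
    have h2 : 0 < cnt s (s k0) := (cnt_pos_iff s _).2 ⟨k0, rfl⟩
    rw [← h1] at h2
    exact lt_irrefl _ h2
  have hc : ∀ g, cc L * g = g * cc L := fun g => cc_comm j g
  obtain ⟨N, x, y, hpx, hpy, hxpos, hypos, hN, hxH, hyH, hstx, hsty, hdist, hcard, hps⟩ :=
    htwo (L ≃ₐ[ℚ] L) (cc L) hc O hO hdisj hker P (fun S => Iff.rfl) a ha ha0
  let x' : Bool → Set (L ≃ₐ[ℚ] L) := fun b => Bool.rec y x b
  have hinj : Function.Injective (fun k : Orb N x' => k.2.1) := by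
    rintro ⟨b, S⟩ ⟨b', S'⟩ h
    have h' : S.1 = S'.1 := h
    cases b <;> cases b'
    · congr 1
      exact Subtype.ext h'
    · exact absurd h'.symm (hdist S' S)
    · exact absurd h' (hdist S S')
    · congr 1
      exact Subtype.ext h'
  have hbt : Balanced (fun k : Orb N x' => k.2.1) := by
    rw [balanced_iff]
    intro σ
    rw [Fintype.sum_sigma, Fintype.sum_bool]
    change Comb.psum N x σ + Comb.psum N y σ = 0
    by_cases h : σ ∈ N
    · rw [Comb.psum_mem h, Comb.psum_mem h, hps]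
      ring
    · have h1 := Comb.psum_mem (x := x) (hN.2 σ h)
      have h2 := Comb.psum_mem (x := y) (hN.2 σ h)
      rw [Comb.psum_c hxH] at h1
      rw [Comb.psum_c hyH] at h2
      linarith
  have hAt : AlgR 𝒟 X j (fun k : Orb N x' => k.2.1) := by
    refine algR_orb hcore hD j N x' ?_ hN ?_ ?_ hbt X
    · rintro (_ | _)
      · exact hyH
      · exact hxH
    · rintro (_ | _)
      · exact hsty
      · exact hstx
    · rintro (_ | _)
      · exact hcard.2
      · exact hcard.1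
  refine ⟨Orb N x', inferInstance, inferInstance, fun k => k.2.1,
    ⟨⟨true, ⟨x, Comb.self_mem N x⟩⟩⟩, hbt, hAt, fun k' => ?_⟩
  have h1 : cnt (fun k : Orb N x' => k.2.1) k'.2.1 ≤ 1 := by
    rw [cnt_eq]
    have h3 : Nat.card {k : Orb N x' // k.2.1 = k'.2.1} ≤ 1 := by
      rw [Finite.card_le_one_iff_subsingleton]
      exact ⟨fun a b => Subtype.ext (hinj (a.2.trans b.2.symm))⟩
    exact_mod_cast h3
  refine h1.trans (hone _ ?_)
  obtain ⟨b, S, τ, hτ, rfl⟩ := k'
  cases b
  · change 0 < a (Comb.tr τ y)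
    rw [hpy τ hτ]
    exact hypos
  · change 0 < a (Comb.tr τ x)
    rw [hpx τ hτ]
    exact hxpos

/-- All balanced families are decomposed. -/
theorem algR_family (htwo : S_two) (hcore : S_core) (hD : 2 ∈ 𝒟) (j : L →+* ℂ) (O : Finset (Set (Set (L ≃ₐ[ℚ] L))))
    (hO : ∀ Q ∈ O, Comb.IsOrbit (cc L) Q)
    (hdisj : ∀ Q ∈ O, ∀ Q' ∈ O, Q ≠ Q' → Disjoint Q Q')
    (hker : ∀ Q ∈ O, ∀ Q' ∈ O, ∀ Q'' ∈ O, 2 < Q.ncard → 2 < Q'.ncard → 2 < Q''.ncard →
      Comb.kerP Q = Comb.kerP Q' → Comb.kerP Q' = Comb.kerP Q'' → Q = Q' ∨ Q' = Q'' ∨ Q = Q'')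
    (X : CMAV) {κ : Type} [Fintype κ] [DecidableEq κ] (s : κ → Set (L ≃ₐ[ℚ] L))
    (hs : ∀ k, ∃ Q ∈ O, s k ∈ Q) (hbal : Balanced s) : AlgR 𝒟 X j s :=
  algR_of_blocks j X (fun S => ∃ Q ∈ O, S ∈ Q)
    (fun κ _ _ _ s hs hbal hpair => block_family htwo hcore hD j O hO hdisj hker X κ s hs hbal hpair)
    _ κ rfl s hs hbal

/-- From the monomials to all Hodge classes. -/
theorem r_of_mono (X : CMAV) {κ : Type} [Finite κ]
    (hall : ∀ (L : Type) [Field L] [NumberField L] [IsCMField L] [IsGalois ℚ L] (j : L →+* ℂ),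
      (∀ i, ∀ ψ : (X.factor i).E →+* ℂ, ∃ φ : (X.factor i).E →+* L, j.comp φ = ψ) →
      ∀ [Fintype κ] [DecidableEq κ] (I : κ → Wt X L), Balanced (fun k => St j (I k)) →
        mono I ∈ LR 𝒟 L X κ)
    (f : X.H1 [⋀^κ]→ₗ[ℚ] ℚ) (hf : IsHodge X.per f) : R 𝒟 X κ f := by
  classical
  have := Fintype.ofFinite κ
  rcases isEmpty_or_nonempty κ with hκ | ⟨⟨k0⟩⟩
  · exact R.unit f
  rcases isEmpty_or_nonempty X.I with hI | hI
  · have h1 : f = 0 := by
      ext v
      have h2 : v k0 = 0 := by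
        funext i
        exact (hI.false i).elim
      rw [f.map_coord_zero k0 h2]
      rfl
    rw [h1]
    exact R.zero κ
  obtain ⟨L, _, _, _, _, j, hj⟩ := exists_cm X
  apply r_of_LR (L := L)
  obtain ⟨c, hc⟩ := form_coeff (E := fun i : X.I => (X.factor i).E) (fun i : X.I => i) j hj
    f.toMultilinearMap
  have hmono : ∀ I : κ → Wt X L, c I ≠ 0 → mono I ∈ LR 𝒟 L X κ := by
    intro I hI
    have h1 : Balanced (fun k => St j (I k)) := by
      intro σ
      have h2 := balanced_of_hodge (E := fun i : X.I => (X.factor i).E)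
        (Φ := fun i : X.I => (X.factor i).Φ) (fun i : X.I => i) j
        (fun i => (X.factor i).isCMType) hj f hf c hc I hI σ
      exact h2
    exact hall L j hj I h1
  have hsum : ((Fintype.card (Perm κ) : ℕ) : L) • (fun v : κ → X.H1 => ((f v : ℚ) : L)) =
      ∑ I : κ → Wt X L, c I • mono I := by
    funext v
    rw [Finset.sum_apply, Pi.smul_apply, smul_eq_mul]
    have h1 : ∀ σ : Perm κ, ((f v : ℚ) : L) = ((Perm.sign σ : ℤ) : L) *
        ∑ I : κ → Wt X L, c I * ∏ k, ev (v (σ k)) (I k) := by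
      intro σ
      have h2 : ((f (fun k => v (σ k)) : ℚ) : L) =
          ∑ I : κ → Wt X L, c I * ∏ k, ev (v (σ k)) (I k) := hc (fun k => v (σ k))
      rw [← h2]
      have h3 : f (fun k => v (σ k)) = Perm.sign σ • f v := f.map_perm v σ
      rw [h3, Units.smul_def, zsmul_eq_mul, Rat.cast_mul, Rat.cast_intCast, ← mul_assoc,
        ← Int.cast_mul, ← Units.val_mul, Int.units_mul_self, Units.val_one, Int.cast_one, one_mul]
    have h4 : ((Fintype.card (Perm κ) : ℕ) : L) * ((f v : ℚ) : L) =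
        ∑ σ : Perm κ, ((Perm.sign σ : ℤ) : L) *
          ∑ I : κ → Wt X L, c I * ∏ k, ev (v (σ k)) (I k) := by
      rw [← Finset.sum_congr rfl (fun σ _ => h1 σ), Finset.sum_const, Finset.card_univ,
        nsmul_eq_mul]
    rw [h4]
    simp only [Finset.mul_sum]
    rw [Finset.sum_comm]
    refine Finset.sum_congr rfl fun I _ => ?_
    rw [Pi.smul_apply, smul_eq_mul, mono_apply, Finset.mul_sum]
    refine Finset.sum_congr rfl fun σ _ => ?_
    ring
  have h5 : ((Fintype.card (Perm κ) : ℕ) : L) • (fun v : κ → X.H1 => ((f v : ℚ) : L)) ∈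
      LR 𝒟 L X κ := by
    rw [hsum]
    refine Submodule.sum_mem _ fun I _ => ?_
    by_cases hI : c I = 0
    · rw [hI, zero_smul]
      exact Submodule.zero_mem _
    · exact Submodule.smul_mem _ _ (hmono I hI)
  have hne : ((Fintype.card (Perm κ) : ℕ) : L) ≠ 0 := Nat.cast_ne_zero.2 Fintype.card_ne_zero
  have h6 := Submodule.smul_mem _ (((Fintype.card (Perm κ) : ℕ) : L))⁻¹ h5
  rwa [smul_smul, inv_mul_cancel₀ hne, one_smul] at h6

/-- The factors of `X` have dimension at most three, and among any three factors of dimension at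
least two whose CM fields have the same Galois closure over `ℚ` two have isomorphic CM types, unless
the CM field is Galois over `ℚ`. -/
structure SmallT (X : CMAV) : Prop where
  degree : ∀ i, finrank ℚ (X.factor i).E ≤ 6
  closure : ∀ i k l, finrank ℚ (X.factor i).E ≠ 2 → finrank ℚ (X.factor k).E ≠ 2 →
    finrank ℚ (X.factor l).E ≠ 2 → IntermediateField.normalClosure ℚ (X.factor i).E ℂ =
      IntermediateField.normalClosure ℚ (X.factor k).E ℂ →
    IntermediateField.normalClosure ℚ (X.factor k).E ℂ =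
      IntermediateField.normalClosure ℚ (X.factor l).E ℂ →
    IsGalois ℚ (X.factor i).E ∨ SameType (X.factor i) (X.factor k) ∨
      SameType (X.factor k) (X.factor l) ∨ SameType (X.factor i) (X.factor l)

theorem r_small (htwo : S_two) (hcore : S_core) (hD : 2 ∈ 𝒟) (X : CMAV) (hX : SmallT X) {κ : Type} [Finite κ]
    (f : X.H1 [⋀^κ]→ₗ[ℚ] ℚ) (hf : IsHodge X.per f) : R 𝒟 X κ f := by
  classical
  refine r_of_mono X ?_ f hf
  intro L _ _ _ _ j hj _ _ I hb
  let O : Finset (Set (Set (L ≃ₐ[ℚ] L))) :=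
    Finset.univ.image fun i : X.I => Set.range (hs (X.factor i) j)
  have hmem : ∀ Q ∈ O, ∃ i, Q = Set.range (hs (X.factor i) j) := by
    intro Q hQ
    obtain ⟨i, -, h⟩ := Finset.mem_image.1 hQ
    exact ⟨i, h.symm⟩
  refine algR_family htwo hcore hD j O ?_ ?_ ?_ X (fun k => St j (I k)) ?_ hb I (fun k => rfl)
  · intro Q hQ
    obtain ⟨i, rfl⟩ := hmem Q hQ
    refine ⟨stable_hs (X.factor i) j, trans_hs (X.factor i) j, compl_hs (X.factor i) j, ?_,
      (ncard_hs (X.factor i) j (hj i)).trans (hX.degree i)⟩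
    rintro _ ⟨φ, rfl⟩
    exact isHalf_hs (X.factor i) j φ
  · intro Q hQ Q' hQ' hne
    obtain ⟨i, rfl⟩ := hmem Q hQ
    obtain ⟨k, rfl⟩ := hmem Q' hQ'
    rw [Set.disjoint_left]
    intro S hS hS'
    apply hne
    ext T
    constructor
    · intro hT
      obtain ⟨g, hg⟩ := trans_hs (X.factor i) j S hS T hT
      rw [← hg]
      exact stable_hs (X.factor k) j g S hS'
    · intro hT
      obtain ⟨g, hg⟩ := trans_hs (X.factor k) j S hS' T hT
      rw [← hg]
      exact stable_hs (X.factor i) j g S hS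
  · intro Q hQ Q' hQ' Q'' hQ'' h2 h2' h2'' hker hker'
    obtain ⟨i, rfl⟩ := hmem Q hQ
    obtain ⟨k, rfl⟩ := hmem Q' hQ'
    obtain ⟨l, rfl⟩ := hmem Q'' hQ''
    have hcl := le_antisymm
      (normalClosure_le (X.factor i) (X.factor k) j (hj i)
        (hs_injective (X.factor i) j (hj i) (hX.degree i) h2) hker.ge)
      (normalClosure_le (X.factor k) (X.factor i) j (hj k)
        (hs_injective (X.factor k) j (hj k) (hX.degree k) h2') hker.le)
    have hcl' := le_antisymm
      (normalClosure_le (X.factor k) (X.factor l) j (hj k)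
        (hs_injective (X.factor k) j (hj k) (hX.degree k) h2') hker'.ge)
      (normalClosure_le (X.factor l) (X.factor k) j (hj l)
        (hs_injective (X.factor l) j (hj l) (hX.degree l) h2'') hker'.le)
    have hne : ∀ i, 2 < (Set.range (hs (X.factor i) j)).ncard → finrank ℚ (X.factor i).E ≠ 2 := by
      intro i h h'
      have h3 := ncard_hs (X.factor i) j (hj i)
      omega
    rcases hX.closure i k l (hne i h2) (hne k h2') (hne l h2'') hcl hcl' with h | h | h | h
    · exact Or.inl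
        (range_eq_of_galois (X.factor i) (X.factor k) j (hj i) (hX.degree i) h2 h2' hker h)
    · exact Or.inl (range_eq_of_sameType (X.factor i) (X.factor k) j h)
    · exact Or.inr (Or.inl (range_eq_of_sameType (X.factor k) (X.factor l) j h))
    · exact Or.inr (Or.inr (range_eq_of_sameType (X.factor i) (X.factor l) j h))
  · intro k
    exact ⟨_, Finset.mem_image.2 ⟨(I k).1, Finset.mem_univ _, rfl⟩, (I k).2, rfl⟩

end

end Pool.Agent.Q60.D3G
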