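import Mathlib
import Pool.Agent.Q60.D3G.RFam
import Pool.Agent.Q60.D3E.Fine
import Pool.Agent.Q180.UW.Main
import Pool.Agent.Q247.WT.Conv

/-!
# Hodge classes on products of simple abelian varieties of dimension at most three, of prime
dimension, of unitary type and with endomorphism ring `ℤ`: assembly
-/

set_option linter.unusedSectionVars false
set_option linter.unusedVariables false

namespace Pool.Agent.Q60.D3G

open NumberField Module Pool.Agent.H204R3.CM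
open Pool.Agent.W547.KB (CMPair CMAV)
open Pool.Agent.W547.LN (SameType)
open Pool.Agent.Q60.D3 (AV IsHom IsSimple IsCM IsIsogenousToProd)
open Pool.Agent.Q60.D3E (IsoCM HasCMType InP inP_zero isoCM_single finrank_of_type)
open Pool.Agent.Q180.WT (Gen)
open Pool.Agent.Q180.UW (IsUnitary)

variable {𝒟 : Set ℕ} {𝒮 : Set CMPair}

/-- The simple abelian varieties of CM type. -/
def Cl (𝒮 : Set CMPair) (A : AV) : Prop :=
  finrank ℂ A.T = 0 ∨ ∃ B, HasCMType A B ∧ (B ∈ 𝒮 ∨ finrank ℚ B.E = 2)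

theorem inP_of_cl {A : AV} (h : Cl 𝒮 A) : InP 𝒮 A := by
  rcases h with h | ⟨B, hB, h⟩
  · exact inP_zero h
  · exact ⟨⟨Unit, fun _ => B⟩, fun _ => h, isoCM_single hB⟩

/-- The condition on the Galois closures. -/
def TriS (𝒮 : Set CMPair) : Prop :=
  ∀ B ∈ 𝒮, ∀ B' ∈ 𝒮, ∀ B'' ∈ 𝒮, IntermediateField.normalClosure ℚ B.E ℂ =
      IntermediateField.normalClosure ℚ B'.E ℂ → IntermediateField.normalClosure ℚ B'.E ℂ =
      IntermediateField.normalClosure ℚ B''.E ℂ →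
    IsGalois ℚ B.E ∨ SameType B B' ∨ SameType B' B'' ∨ SameType B B''

/-- The Hodge classes on the products of abelian varieties of CM type. -/
theorem gen_of_inP (htwo : S_two) (hcore : S_core) (hD : 2 ∈ 𝒟)
    (h6 : ∀ B ∈ 𝒮, finrank ℚ B.E ≤ 6) (htri : TriS 𝒮)
    {Y : AV} (hY : InP 𝒮 Y) {κ : Type} [Finite κ] (f : Y.H [⋀^κ]→ₗ[ℚ] ℚ) (hf : IsHodge Y.per f) :
    Gen 𝒟 Y κ f := by
  obtain ⟨X, hX, e, C, h⟩ := hY
  have hX' : SmallT X := by
    refine ⟨fun i => ?_, fun i k l hi hk hl h1 h2 => ?_⟩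
    · rcases hX i with h1 | h1
      · exact h6 _ h1
      · omega
    · exact htri _ ((hX i).resolve_right hi) _ ((hX k).resolve_right hk) _
        ((hX l).resolve_right hl) h1 h2
  have h1 : IsHodge X.per (f.compLinearMap e.symm.toLinearMap) := by
    refine Pool.Agent.W437.HK.isHodge_pullback (Φ := C.symm.toLinearMap) (fun w => ?_) hf
    have h2 := h (e.symm w)
    rw [e.apply_symm_apply] at h2
    change Y.per (e.symm w) = C.symm (X.per w)
    rw [← h2, C.symm_apply_apply]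
  have h3 : Gen 𝒟 (av X) κ (f.compLinearMap e.symm.toLinearMap) :=
    r_small htwo hcore hD X hX' _ h1
  have h5 := Gen.pull (X := Y) (Y := av X) e.toLinearMap ⟨C.toLinearMap, h⟩ _ h3
  have h4 : (f.compLinearMap e.symm.toLinearMap).compLinearMap e.toLinearMap = f := by
    ext v
    change f (fun l => e.symm (e (v l))) = f v
    congr 1
    funext l
    exact e.symm_apply_apply _
  have h6 : ∀ g : Y.H [⋀^κ]→ₗ[ℚ] ℚ, Gen 𝒟 Y κ g → g = f → Gen 𝒟 Y κ f := by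
    rintro g hg rfl
    exact hg
  exact h6 _ h5 h4

/-- The pairs `(2, M)`. -/
def WW (𝒟 : Set ℕ) : Set (ℕ × ℕ) := {w | w.1 = 2 ∧ w.2 ∈ 𝒟}

/-- From the classes of project UW to the classes of project WT. -/
theorem gen_of_genU (hw : S_w2w) (hiso : S_iso)
    (hP : ∀ {Y : AV}, InP 𝒮 Y → ∀ {κ : Type} [Finite κ] (f : Y.H [⋀^κ]→ₗ[ℚ] ℚ),
      IsHodge Y.per f → Gen 𝒟 Y κ f) {X : AV} {κ : Type} (f : X.H [⋀^κ]→ₗ[ℚ] ℚ)
    (h : Pool.Agent.Q180.UW.Gen (WW 𝒟) (Cl 𝒮) X κ f) : Finite κ → Gen 𝒟 X κ f := by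
  induction h with
  | unit f => exact fun _ => .unit f
  | divisor hκ f hf => exact fun _ => .divisor hκ f hf
  | @weil Y e M he f hf =>
    intro _
    obtain ⟨h1, h2⟩ := he
    change e = 2 at h1
    subst h1
    exact .weil h2 f (hw M Y f hf)
  | @cm Y κ ι _ B hB hY f hf =>
    intro _
    exact hP (hiso (fun B' => B' ∈ 𝒮 ∨ finrank ℚ B'.E = 2) ι Y B hY fun i => inP_of_cl (hB i).2)
      f hf
  | zero X κ => exact fun _ => .zero X κ
  | add f g _ _ ihf ihg => exact fun h => .add f g (ihf h) (ihg h)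
  | smul a f _ ih => exact fun h => .smul a f (ih h)
  | reindex e f _ ih => exact fun h => .reindex e f (ih (Finite.of_equiv _ e.symm))
  | cup f g _ _ h hh ihf ihg => exact fun _ => .cup f g (ihf inferInstance) (ihg inferInstance) h hh
  | pull h hh f _ ih => exact fun hfin => .pull h hh f (ih hfin)
  | push b f _ g hg ih =>
    intro h
    have := Module.Finite.finite_basis b
    exact .push b f (ih inferInstance) g hg

theorem isCM_zero {A : AV} (h : finrank ℂ A.T = 0) : IsCM A := by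
  obtain ⟨X, -, hX⟩ := inP_zero (𝒮 := ∅) h
  exact Pool.Agent.Q237.D3E.iscm A X hX

/-- The theorem, from the lemmas. -/
theorem top (htwo : S_two) (hcore : S_core) (hw : S_w2w) (huni : S_uni) (hiso : S_iso)
    (hD : 2 ∈ 𝒟) {ι : Type} [Finite ι] {X : AV} {A : ι → AV} (hX : IsIsogenousToProd X A)
    (hA : ∀ i, (IsSimple (A i) ∧ finrank ℂ (A i).T ≤ 3) ∨ (∃ M ∈ 𝒟, IsUnitary (A i) 2 M) ∨
      (IsSimple (A i) ∧ (finrank ℂ (A i).T).Prime ∧ ¬ IsCM (A i) ∧
        ¬ ∃ M, IsUnitary (A i) 2 M) ∨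
      (Odd (finrank ℂ (A i).T) ∧
        ∀ h : (A i).H →ₗ[ℚ] (A i).H, IsHom (A i) (A i) h → ∃ a : ℚ, h = a • LinearMap.id))
    (hcl : ∀ i k l (B B' B'' : CMPair), HasCMType (A i) B → HasCMType (A k) B' →
      HasCMType (A l) B'' →
      IntermediateField.normalClosure ℚ B.E ℂ = IntermediateField.normalClosure ℚ B'.E ℂ →
      IntermediateField.normalClosure ℚ B'.E ℂ = IntermediateField.normalClosure ℚ B''.E ℂ →
      IsGalois ℚ B.E ∨ SameType B B' ∨ SameType B' B'' ∨ SameType B B'')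
    {κ : Type} [Finite κ] (f : X.H [⋀^κ]→ₗ[ℚ] ℚ) : IsHodge X.per f ↔ Gen 𝒟 X κ f := by
  refine ⟨fun hf => ?_, fun hf => Pool.Agent.Q247.WT.conv 𝒟 X κ f hf inferInstance⟩
  let 𝒮 : Set CMPair := {B | ∃ i, HasCMType (A i) B ∧ finrank ℂ (A i).T ≤ 3}
  have h6 : ∀ B ∈ 𝒮, finrank ℚ B.E ≤ 6 := by
    rintro B ⟨i, hi, h3⟩
    rw [finrank_of_type hi]
    omega
  have htri : TriS 𝒮 := by
    rintro B ⟨i, hi, -⟩ B' ⟨k, hk, -⟩ B'' ⟨l, hl, -⟩ h h'
    exact hcl i k l B B' B'' hi hk hl h h'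
  have hone : ∀ (e M : ℕ) (B : AV), (e, M) ∈ WW 𝒟 → IsCM B → 2 * finrank ℂ B.T = e →
      Cl 𝒮 B := by
    intro e M B he hcm hd
    have h1 : e = 2 := he.1
    have h2 : finrank ℂ B.T = 1 := by omega
    obtain ⟨B', hB'⟩ := Pool.Agent.Q60.D3E.cls' B (Pool.Agent.Q261.D3E.one B h2) hcm
      (by rw [h2]; exact one_pos)
    refine Or.inr ⟨B', hB', Or.inr ?_⟩
    rw [finrank_of_type hB', h2]
  have hA' : ∀ i, (IsCM (A i) ∧ Cl 𝒮 (A i)) ∨
      (∃ e M, (e, M) ∈ WW 𝒟 ∧ IsUnitary (A i) e M) ∨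
      (IsSimple (A i) ∧ (finrank ℂ (A i).T = 1 ∨ (finrank ℂ (A i).T).Prime) ∧ ¬ IsCM (A i) ∧
        ¬ ∃ e M, IsUnitary (A i) e M) ∨
      (Odd (finrank ℂ (A i).T) ∧
        ∀ h : (A i).H →ₗ[ℚ] (A i).H, IsHom (A i) (A i) h → ∃ a : ℚ, h = a • LinearMap.id) := by
    intro i
    rcases hA i with ⟨hs, h3⟩ | ⟨M, hM, hu⟩ | ⟨hs, hp, hcm, hu⟩ | h
    · by_cases hcm : IsCM (A i)
      · refine Or.inl ⟨hcm, ?_⟩
        by_cases h0 : finrank ℂ (A i).T = 0
        · exact Or.inl h0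
        · obtain ⟨B, hB⟩ := Pool.Agent.Q60.D3E.cls' (A i) hs hcm (Nat.pos_of_ne_zero h0)
          exact Or.inr ⟨B, hB, Or.inl ⟨i, hB, h3⟩⟩
      · by_cases hu : ∃ e M, IsUnitary (A i) e M
        · obtain ⟨e, M, hu⟩ := hu
          exact Or.inr (Or.inl ⟨2, 2, ⟨rfl, hD⟩, ((huni (A i) e M hu).1 h3).2⟩)
        · refine Or.inr (Or.inr (Or.inl ⟨hs, ?_, hcm, hu⟩))
          have h0 : finrank ℂ (A i).T ≠ 0 := fun h => hcm (isCM_zero h)
          have h1 : finrank ℂ (A i).T = 1 ∨ finrank ℂ (A i).T = 2 ∨ finrank ℂ (A i).T = 3 := by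
            omega
          rcases h1 with h1 | h1 | h1
          · exact Or.inl h1
          · rw [h1]
            exact Or.inr Nat.prime_two
          · rw [h1]
            exact Or.inr Nat.prime_three
    · exact Or.inr (Or.inl ⟨2, M, ⟨rfl, hM⟩, hu⟩)
    · refine Or.inr (Or.inr (Or.inl ⟨hs, Or.inr hp, hcm, ?_⟩))
      rintro ⟨e, M, hu'⟩
      have h1 := (huni (A i) e M hu').2 hp
      subst h1
      exact hu ⟨M, hu'⟩
    · exact Or.inr (Or.inr (Or.inr h))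
  have h7 := (Pool.Agent.Q180.UW.main (WW 𝒟) (Cl 𝒮) hone ι X A hX hA' κ f).1 hf
  exact gen_of_genU hw hiso (fun {Y} hY {κ} _ f hf => gen_of_inP htwo hcore hD h6 htri hY f hf)
    f h7 inferInstance

end Pool.Agent.Q60.D3G
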