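import Mathlib
import Pool.Agent.Q60.D3G.Top
import Pool.Agent.Q60.D3G.Pair
import Pool.Agent.Q225.D3G.Line
import Pool.Agent.Q146.D3G.Irr
import Pool.Agent.Q146.D3G.Cmp
import Pool.Agent.Q146.D3G.Part
import Pool.Agent.Q211.D3G.PROJ
import Pool.Agent.Q211.D3G.SEP
import Pool.Agent.Q211.D3G.TWO
import Pool.Agent.Q14.D3G.Struct
import Pool.Agent.Q274.D3G.Root
import Pool.Agent.Q274.D3G.Core
import Pool.Agent.Q58.D3G.Lap
import Pool.Agent.Q58.D3G.Trc
import Pool.Agent.Q58.D3G.Fin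
import Pool.Agent.Q174.D3G.Cko

/-!
# Hodge classes on products of simple abelian varieties of dimension at most three, of prime
dimension, of unitary type and with endomorphism ring `ℤ`
-/

namespace Pool.Agent.Q60.D3G

open Module Pool.Agent.H204R3.CM
open Pool.Agent.W547.KB (CMPair)
open Pool.Agent.W547.LN (SameType)
open Pool.Agent.Q60.D3 (AV IsHom IsSimple IsCM IsIsogenousToProd)
open Pool.Agent.Q60.D3E (HasCMType)
open Pool.Agent.Q180.WT (Gen)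
open Pool.Agent.Q180.UW (IsUnitary)

theorem two' : S_two :=
  Pool.Agent.Q211.D3G.two (Q146.D3G.part Pool.Agent.Q211.D3G.sep'
    (pair (Q146.D3G.irr Pool.Agent.Q225.D3G.line) Pool.Agent.Q211.D3G.proj
      (Pool.Agent.Q14.D3G.struct Pool.Agent.Q211.D3G.proj) Q146.D3G.cmp))

theorem core' : S_core :=
  Pool.Agent.Q274.D3G.core Pool.Agent.Q274.D3G.root Pool.Agent.Q58.D3G.lap
    Pool.Agent.Q58.D3G.trc Pool.Agent.Q174.D3G.cko

/-- **The theorem on Hodge classes.** -/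
theorem hodge {𝒟 : Set ℕ} (hD : 2 ∈ 𝒟) {ι : Type} [Finite ι] {X : AV} {A : ι → AV}
    (hX : IsIsogenousToProd X A)
    (hA : ∀ i, (IsSimple (A i) ∧ finrank ℂ (A i).T ≤ 3) ∨ (∃ M ∈ 𝒟, IsUnitary (A i) 2 M) ∨
      (IsSimple (A i) ∧ (finrank ℂ (A i).T).Prime ∧ ¬ IsCM (A i) ∧
        ¬ ∃ M, IsUnitary (A i) 2 M) ∨
      (Odd (finrank ℂ (A i).T) ∧
        ∀ h : (A i).H →ₗ[ℚ] (A i).H, IsHom (A i) (A i) h → ∃ a : ℚ, h = a • LinearMap.id))
    (hcl : ∀ i k l (B B' B'' : CMPair), HasCMType (A i) B → HasCMType (A k) B' →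
      HasCMType (A l) B'' →
      IntermediateField.normalClosure ℚ B.E ℂ = IntermediateField.normalClosure ℚ B'.E ℂ →
      IntermediateField.normalClosure ℚ B'.E ℂ = IntermediateField.normalClosure ℚ B''.E ℂ →
      IsGalois ℚ B.E ∨ SameType B B' ∨ SameType B' B'' ∨ SameType B B'')
    {κ : Type} [Finite κ] (f : X.H [⋀^κ]→ₗ[ℚ] ℚ) : IsHodge X.per f ↔ Gen 𝒟 X κ f :=
  top two' core' Pool.Agent.Q58.D3G.w2w Pool.Agent.Q58.D3G.uni Pool.Agent.Q58.D3G.iso hD hX hA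
    hcl f

end Pool.Agent.Q60.D3G
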